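import Pool.Agent.Q96.KP.Line
import Pool.Agent.TH784.KE.Zero

/-!
# Box averages of functions with vanishing expectation on the base, arbitrary positions
-/

set_option autoImplicit false
set_option linter.unusedSectionVars false

open MeasureTheory Filter Topology

noncomputable section

namespace Pool.Agent.Q96.KP

open Pool.Agent.TH784.KE
open Pool.Agent.W761.Box (bx bx_add bx_mul bx_sum bx_mono bx_abs bx_const_le bx_nonneg good1
  Good1 int_lim_le')
open Pool.Agent.TH784.AA (bxs mem_bxs vol vol_pos vol_nonneg card_bxs sum_fiber bxs_mono)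

variable {X : Type*} {mA mY mX : MeasurableSpace X} {μ : Measure X} [IsProbabilityMeasure μ]
variable {G : Type*} [Group G]
variable {Φ : G →* Equiv.Perm X} {ℓ : G → ℝ}
variable {J : Type*} [DecidableEq J]

/-- sums along the good lines of a cube -/
theorem lines_ae' {k : ℕ} (hFl : Flow μ Φ) (hA : Filt mX mA Φ ℓ) (hY : Base mY mA Φ)
    {V : Finset J} {q : (Fin k → ℕ) → J → G} (l : Fin k)
    {F H : J → X → ℝ} {W : (Fin k → ℕ) → X → ℝ} {r s : G} {R : ℝ}
    (hsr : ℓ s ≤ ℓ r) (hR : ℓ r - ℓ s ≤ R) (hR0 : 0 ≤ R)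
    (hF : ∀ w ∈ V, Measurable[cm mA Φ r] (F w) ∧ ∀ x, |F w x| ≤ 1)
    (hH : ∀ v ∈ V, CE μ (cm mA Φ s) (F v) (H v))
    (hW : ∀ n, Measurable[mY] (W n) ∧ ∀ x, |W n x| ≤ 1)
    {L : ℕ} (hL : 0 < L) {η : ℝ} (hη : 0 < η) :
    ∀ᵐ x ∂μ, ∀ᶠ M : ℕ in atTop, ∀ n ∈ bxs (fun _ : Fin k => M),
      (∀ v ∈ V, Mult L R fun t => ℓ (q (Function.update n l t) v)) →
      |∑ t ∈ Finset.range M, ∑ v ∈ V, DD V Φ ℓ R F H (W (Function.update n l t))
        (q (Function.update n l t)) v x| ≤ η * M := by
  classical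
  set η' : ℝ := η / (V.card + 1) with hη'
  have hη'0 : 0 < η' := by positivity
  set κ : ℝ := (η' / (2 * L)) ^ 2 / 2 with hκ
  have hL' : (0 : ℝ) < L := by exact_mod_cast hL
  have hκ0 : 0 < κ := by positivity
  let Gd : ℕ → Finset (Fin k → ℕ) := fun M => (bxs (fun _ : Fin k => M)).filter fun n =>
    ∀ v ∈ V, Mult L R fun t => ℓ (q (Function.update n l t) v)
  let bad : ℕ → Set X := fun M => ⋃ n ∈ Gd M, ⋃ v ∈ V,
    {x | η' * M ≤ |∑ t ∈ Finset.range M, DD V Φ ℓ R F H (W (Function.update n l t))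
      (q (Function.update n l t)) v x|}
  have hbad : ∀ M : ℕ, 0 < M → μ.real (bad M) ≤
      ((M : ℝ) ^ k * Real.exp (-κ) ^ M) * (V.card * (L * 2)) := by
    intro M hM
    have hM' : (0 : ℝ) < M := by exact_mod_cast hM
    refine (measureReal_biUnion_finset_le _ _).trans ?_
    have h1 : ∀ n ∈ Gd M, μ.real (⋃ v ∈ V,
        {x | η' * M ≤ |∑ t ∈ Finset.range M, DD V Φ ℓ R F H (W (Function.update n l t))
          (q (Function.update n l t)) v x|}) ≤
        V.card * (L * (2 * Real.exp (-κ) ^ M)) := by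
      intro n hn
      refine (measureReal_biUnion_finset_le _ _).trans ?_
      rw [← nsmul_eq_mul, ← Finset.sum_const]
      refine Finset.sum_le_sum fun v hv => ?_
      have h2 := line_bound' hFl hA hY hv (p := fun m => q (Function.update n l m))
        (W := fun t => W (Function.update n l t)) hsr hR hR0 hF (hH v hv)
        (fun t => hW _) hL ((Finset.mem_filter.1 hn).2 v hv) hM (t := η' * M) (by positivity)
      refine h2.trans (le_of_eq ?_)
      congr 2
      rw [← Real.exp_nat_mul]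
      congr 1
      rw [hκ]
      field_simp
    refine (Finset.sum_le_sum h1).trans ?_
    rw [Finset.sum_const, nsmul_eq_mul]
    have h3 : ((Gd M).card : ℝ) ≤ (M : ℝ) ^ k := by
      have h4 : (Gd M).card ≤ (bxs (fun _ : Fin k => M)).card := Finset.card_filter_le _ _
      have h5 : ((bxs (fun _ : Fin k => M)).card : ℝ) = (M : ℝ) ^ k := by
        rw [card_bxs]
        unfold vol
        rw [Finset.prod_const, Finset.card_univ, Fintype.card_fin]
      rw [← h5]
      exact_mod_cast h4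
    calc ((Gd M).card : ℝ) * (V.card * (L * (2 * Real.exp (-κ) ^ M))) ≤
        (M : ℝ) ^ k * (V.card * (L * (2 * Real.exp (-κ) ^ M))) :=
          mul_le_mul_of_nonneg_right h3 (by positivity)
      _ = _ := by ring
  have hsummable : Summable fun M : ℕ => ((M : ℝ) ^ k * Real.exp (-κ) ^ M) *
      (V.card * (L * 2)) := by
    refine Summable.mul_right _ ?_
    refine summable_pow_mul_geometric_of_norm_lt_one k ?_
    rw [Real.norm_eq_abs, abs_of_pos (Real.exp_pos _), Real.exp_lt_one_iff]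
    linarith
  have hfin : ∑' M, μ (bad (M + 1)) ≠ ⊤ := by
    have h3 : ∀ M, μ (bad (M + 1)) ≤ ENNReal.ofReal ((((M + 1 : ℕ) : ℝ) ^ k *
        Real.exp (-κ) ^ (M + 1)) * (V.card * (L * 2))) := by
      intro M
      have h4 := hbad (M + 1) M.succ_pos
      rw [measureReal_def] at h4
      rw [← ENNReal.ofReal_toReal (measure_ne_top μ (bad (M + 1)))]
      exact ENNReal.ofReal_le_ofReal h4
    refine ne_top_of_le_ne_top ?_ (ENNReal.tsum_le_tsum h3)
    exact ((summable_nat_add_iff 1).2 hsummable).tsum_ofReal_ne_top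
  filter_upwards [ae_eventually_notMem hfin] with x hx
  obtain ⟨M₀, hM₀⟩ := eventually_atTop.1 hx
  refine eventually_atTop.2 ⟨M₀ + 1, fun M' hM' => ?_⟩
  obtain ⟨M, rfl⟩ : ∃ M, M' = M + 1 := ⟨M' - 1, by omega⟩
  have hM := hM₀ M (by omega)
  intro n hn hgood
  by_contra hcon
  rw [not_le] at hcon
  apply hM
  have h5 : ∃ v ∈ V, η' * ((M + 1 : ℕ) : ℝ) ≤ |∑ t ∈ Finset.range (M + 1),
      DD V Φ ℓ R F H (W (Function.update n l t)) (q (Function.update n l t)) v x| := by
    by_contra hcon2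
    push Not at hcon2
    rw [Finset.sum_comm] at hcon
    have h6 := Finset.abs_sum_le_sum_abs (fun v => ∑ t ∈ Finset.range (M + 1),
      DD V Φ ℓ R F H (W (Function.update n l t)) (q (Function.update n l t)) v x) V
    have h7 : ∑ v ∈ V, |∑ t ∈ Finset.range (M + 1),
        DD V Φ ℓ R F H (W (Function.update n l t)) (q (Function.update n l t)) v x| ≤
        V.card * (η' * ((M + 1 : ℕ) : ℝ)) := by
      rw [← nsmul_eq_mul, ← Finset.sum_const]
      exact Finset.sum_le_sum fun v hv => (hcon2 v hv).le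
    have h8 : (V.card : ℝ) * (η' * ((M + 1 : ℕ) : ℝ)) ≤ η * ((M + 1 : ℕ) : ℝ) := by
      rw [← mul_assoc]
      refine mul_le_mul_of_nonneg_right ?_ (by positivity)
      rw [hη', mul_div_assoc', div_le_iff₀ (by positivity)]
      nlinarith
    linarith
  obtain ⟨v, hv, hle⟩ := h5
  exact Set.mem_biUnion (show n ∈ Gd (M + 1) from Finset.mem_filter.2 ⟨hn, hgood⟩)
    (Set.mem_biUnion hv hle)

open Classical in
/-- indicator of the bad lines in the direction `l` -/
def badl {k : ℕ} (ℓ : G → ℝ) (C : ℕ) (R : ℝ) (S : Finset J) (D : J → Finset (Fin k))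
    (q : (Fin k → ℕ) → J → G) (l : Fin k) (n : Fin k → ℕ) : ℝ :=
  if ∀ v ∈ S, l ∈ D v → Mult C R fun t => ℓ (q (Function.update n l t) v) then 0 else 1

theorem badl_nonneg {k : ℕ} (C : ℕ) (R : ℝ) (S : Finset J) (D : J → Finset (Fin k))
    (q : (Fin k → ℕ) → J → G) (l : Fin k) (n : Fin k → ℕ) : 0 ≤ badl ℓ C R S D q l n := by
  unfold badl
  split_ifs <;> norm_num

variable [Fintype J] {k : ℕ}

theorem bound_ae' (hFl : Flow μ Φ) (hA : Filt mX mA Φ ℓ) (hY : Base mY mA Φ)
    {S : Finset J} {q : (Fin k → ℕ) → J → G} {D : J → Finset (Fin k)} {U : Finset (Fin k)}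
    (hU : U.Nonempty)
    (hD : ∀ v ∈ S, ∀ n n' : Fin k → ℕ, (∀ l ∈ D v, n l = n' l) → q n v = q n' v)
    (hDU : ∀ v ∈ S, D v ⊆ U) (hUD : ∀ l ∈ U, ∃ v ∈ S, l ∈ D v)
    {F H : J → X → ℝ} (hW : ∀ w ∉ S, ∀ n n' : Fin k → ℕ, (∀ l ∈ U, n l = n' l) →
      ∀ x, F w (Φ (q n w) x) = F w (Φ (q n' w) x))
    {r s : G} {R : ℝ} (hsr : ℓ s ≤ ℓ r) (hR : ℓ r - ℓ s ≤ R) (hR0 : 0 < R)
    (hF : ∀ v ∈ S, Measurable[cm mA Φ r] (F v)) (hF1 : ∀ v x, |F v x| ≤ 1)
    (hFY : ∀ v ∉ S, Measurable[mY] (F v)) (hH : ∀ v ∈ S, CE μ (cm mA Φ s) (F v) (H v))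
    {C : ℕ} (hC : 0 < C) {η : ℝ} (hη : 0 < η) :
    ∀ᵐ x ∂μ, ∀ᶠ N : Fin k → ℕ in atTop,
      |bx k N fun n => ∏ v, F v (Φ (q n v) x)| ≤
        η + (bx k N fun n => errb Φ ℓ R H S (q n) x) +
          ∑ l ∈ U, bx k N fun n => badl ℓ C R S D q l n := by
  classical
  let V : Fin k → Finset J := fun l => S.filter fun v => l ∈ D v
  have hVS : ∀ l, V l ⊆ S := fun l => Finset.filter_subset _ _
  let W : (Fin k → ℕ) → X → ℝ := fun n x => ∏ v ∈ Sᶜ, F v (Φ (q n v) x)
  have hWm : ∀ n, Measurable[mY] (W n) ∧ ∀ x, |W n x| ≤ 1 := by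
    intro n
    refine ⟨Finset.measurable_fun_prod _ fun v hv => ?_, fun x =>
      prod_abs_le (fun w _ => hF1 w) _ x⟩
    exact (hFY v (Finset.mem_compl.1 hv)).comp (hY.inv _)
  have hlines : ∀ᵐ x ∂μ, ∀ l : Fin k, ∀ᶠ M : ℕ in atTop, ∀ n ∈ bxs (fun _ : Fin k => M),
      (∀ v ∈ V l, Mult C R fun t => ℓ (q (Function.update n l t) v)) →
      |∑ t ∈ Finset.range M, ∑ v ∈ V l, DD (V l) Φ ℓ R F H (W (Function.update n l t))
        (q (Function.update n l t)) v x| ≤ η * M := by
    rw [ae_all_iff]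
    intro l
    exact lines_ae' hFl hA hY l hsr hR hR0.le
      (fun w hw => ⟨hF w (hVS l hw), hF1 w⟩) (fun v hv => hH v (hVS l hv)) hWm hC hη
  filter_upwards [hlines] with x hx
  obtain ⟨M₀, hM₀⟩ := eventually_atTop.1 (eventually_all.2 hx)
  refine eventually_atTop.2 ⟨fun _ => max M₀ 1, fun N hN => ?_⟩
  have hN1 : ∀ j, 1 ≤ N j := fun j => (le_max_right _ _).trans (hN j)
  obtain ⟨l, hlU, hl⟩ := U.exists_max_image N hU
  have hNl : M₀ ≤ N l := (le_max_left _ _).trans (hN l)
  have hNlpos : (0 : ℝ) < N l := by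
    have := hN1 l
    positivity
  have hVne : (V l).Nonempty := by
    obtain ⟨v, hv, h⟩ := hUD l hlU
    exact ⟨v, Finset.mem_filter.2 ⟨hv, h⟩⟩
  -- only the coordinates in `U` matter
  have hqU : ∀ n n' : Fin k → ℕ, (∀ j ∈ U, n j = n' j) → ∀ v ∈ S, q n v = q n' v :=
    fun n n' h v hv => hD v hv n n' fun j hj => h j (hDU v hv hj)
  have hPU : ∀ n n' : Fin k → ℕ, (∀ j ∈ U, n j = n' j) →
      ∏ v, F v (Φ (q n v) x) = ∏ v, F v (Φ (q n' v) x) := by
    intro n n' h
    refine Finset.prod_congr rfl fun v _ => ?_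
    by_cases hv : v ∈ S
    · rw [hqU n n' h v hv]
    · exact hW v hv n n' h x
  have hEU : ∀ n n' : Fin k → ℕ, (∀ j ∈ U, n j = n' j) →
      errb Φ ℓ R H S (q n) x = errb Φ ℓ R H S (q n') x := by
    intro n n' h
    unfold errb
    congr 1
    · exact Finset.sum_congr rfl fun v hv => by rw [hqU n n' h v hv]
    · refine Finset.sum_congr rfl fun v hv => Finset.sum_congr rfl fun w hw => ?_
      rw [hqU n n' h v hv, hqU n n' h w (Finset.mem_of_mem_erase hw)]
  -- factorisation
  have hfac : ∀ n : Fin k → ℕ, ∏ v, F v (Φ (q n v) x) =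
      (∏ v ∈ S.filter (fun v => ¬ l ∈ D v), F v (Φ (q n v) x)) *
        ((∏ v ∈ V l, F v (Φ (q n v) x)) * W n x) := by
    intro n
    show _ = _ * (_ * ∏ v ∈ Sᶜ, F v (Φ (q n v) x))
    rw [← Finset.prod_mul_prod_compl S, ← Finset.prod_filter_mul_prod_filter_not S
      (fun v => l ∈ D v)]
    ring
  have hinv : ∀ (n : Fin k → ℕ) (t : ℕ),
      ∏ v ∈ S.filter (fun v => ¬ l ∈ D v), F v (Φ (q (Function.update n l t) v) x) =
      ∏ v ∈ S.filter (fun v => ¬ l ∈ D v), F v (Φ (q n v) x) := by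
    intro n t
    refine Finset.prod_congr rfl fun v hv => ?_
    rw [Finset.mem_filter] at hv
    rw [hD v hv.1 (Function.update n l t) n fun j hj => Function.update_of_ne
      (fun (e : j = l) => hv.2 (e ▸ hj)) _ _]
  have hline0 : ∀ n ∈ bxs (fun _ : Fin k => N l),
      (∀ v ∈ S, l ∈ D v → Mult C R fun t => ℓ (q (Function.update n l t) v)) →
      |(N l : ℝ)⁻¹ * ∑ t ∈ Finset.range (N l),
      ∏ v, F v (Φ (q (Function.update n l t) v) x)| ≤
      η + (N l : ℝ)⁻¹ * ∑ t ∈ Finset.range (N l),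
        errb Φ ℓ R H S (q (Function.update n l t)) x := by
    intro n hn' hgood
    have e1 : ∑ t ∈ Finset.range (N l), ∏ v, F v (Φ (q (Function.update n l t) v) x) =
        (∏ v ∈ S.filter (fun v => ¬ l ∈ D v), F v (Φ (q n v) x)) *
        ∑ t ∈ Finset.range (N l),
          ((∏ v ∈ V l, F v (Φ (q (Function.update n l t) v) x)) *
            W (Function.update n l t) x) := by
      rw [Finset.mul_sum]
      refine Finset.sum_congr rfl fun t _ => ?_
      rw [hfac, hinv]
    rw [e1, abs_mul, abs_mul, abs_of_pos (inv_pos.2 hNlpos)]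
    have hK := prod_abs_le (Φ := Φ) (V := S.filter (fun v => ¬ l ∈ D v)) (F := F)
      (fun w _ => hF1 w) (q n) x
    set K := ∏ v ∈ S.filter (fun v => ¬ l ∈ D v), F v (Φ (q n v) x) with hKdef
    have e2 : |∑ t ∈ Finset.range (N l),
          ((∏ v ∈ V l, F v (Φ (q (Function.update n l t) v) x)) *
            W (Function.update n l t) x)| ≤ η * N l + ∑ t ∈ Finset.range (N l),
        errb Φ ℓ R H S (q (Function.update n l t)) x := by
      have e3 : ∑ t ∈ Finset.range (N l),
          ((∏ v ∈ V l, F v (Φ (q (Function.update n l t) v) x)) *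
            W (Function.update n l t) x) =
          ∑ t ∈ Finset.range (N l), ∑ v ∈ V l, DD (V l) Φ ℓ R F H (W (Function.update n l t))
            (q (Function.update n l t)) v x +
          ∑ t ∈ Finset.range (N l), ((∏ v ∈ V l, F v (Φ (q (Function.update n l t) v) x)) *
            W (Function.update n l t) x - ∑ v ∈ V l, DD (V l) Φ ℓ R F H
              (W (Function.update n l t)) (q (Function.update n l t)) v x) := by
        rw [← Finset.sum_add_distrib]
        refine Finset.sum_congr rfl fun t _ => ?_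
        ring
      rw [e3]
      refine (abs_add_le _ _).trans (add_le_add (hM₀ _ hNl l n hn' fun v hv => ?_) ?_)
      · exact hgood v (hVS l hv) (Finset.mem_filter.1 hv).2
      refine (Finset.abs_sum_le_sum_abs _ _).trans (Finset.sum_le_sum fun t _ => ?_)
      refine (pointwise hVne hR0 (fun w _ => hF1 w) (hWm _).2 _ x).trans ?_
      exact errb_mono (Φ := Φ) (ℓ := ℓ) R H (hVS l) _ x
    calc (N l : ℝ)⁻¹ * (|K| * |∑ t ∈ Finset.range (N l),
          ((∏ v ∈ V l, F v (Φ (q (Function.update n l t) v) x)) *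
            W (Function.update n l t) x)|) ≤
          (N l : ℝ)⁻¹ * (1 * (η * N l + ∑ t ∈ Finset.range (N l),
            errb Φ ℓ R H S (q (Function.update n l t)) x)) := by
          refine mul_le_mul_of_nonneg_left ?_ (inv_pos.2 hNlpos).le
          exact mul_le_mul hK e2 (abs_nonneg _) zero_le_one
      _ = _ := by
          field_simp
  have herr0 : ∀ p : J → G, 0 ≤ errb Φ ℓ R H S p x := fun p => by
    unfold errb
    exact add_nonneg (Finset.sum_nonneg fun _ _ => abs_nonneg _)
      (Finset.sum_nonneg fun _ _ => Finset.sum_nonneg fun _ _ => by split_ifs <;> norm_num)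
  have hline : ∀ n ∈ bxs N, |(N l : ℝ)⁻¹ * ∑ t ∈ Finset.range (N l),
      ∏ v, F v (Φ (q (Function.update n l t) v) x)| ≤
      η + (N l : ℝ)⁻¹ * ∑ t ∈ Finset.range (N l),
        errb Φ ℓ R H S (q (Function.update n l t)) x + badl ℓ C R S D q l n := by
    intro n hn
    by_cases hgood : ∀ v ∈ S, l ∈ D v → Mult C R fun t => ℓ (q (Function.update n l t) v)
    · have hb0 : badl ℓ C R S D q l n = 0 := by
        unfold badl
        rw [if_pos hgood]
      rw [hb0, add_zero]
      set n' : Fin k → ℕ := fun j => if j ∈ U then n j else 0 with hn'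
      have hag : ∀ t : ℕ, ∀ j ∈ U, Function.update n l t j = Function.update n' l t j := by
        intro t j hj
        by_cases hjl : j = l
        · subst hjl
          rw [Function.update_self, Function.update_self]
        · rw [Function.update_of_ne hjl, Function.update_of_ne hjl, hn']
          simp only [hj, if_true]
      have hn'b : n' ∈ bxs (fun _ : Fin k => N l) := by
        rw [mem_bxs] at hn ⊢
        intro j
        by_cases hj : j ∈ U
        · simp only [hn', hj, if_true]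
          exact lt_of_lt_of_le (hn j) (hl j hj)
        · simp only [hn', hj, if_false]
          exact hN1 l
      have h9 := hline0 n' hn'b fun v hv hlv => by
        have := hgood v hv hlv
        have e : (fun t => ℓ (q (Function.update n' l t) v)) =
            fun t => ℓ (q (Function.update n l t) v) := by
          funext t
          rw [hqU _ _ (hag t) v hv]
        rw [e]
        exact this
      have e1 : ∀ t, ∏ v, F v (Φ (q (Function.update n' l t) v) x) =
          ∏ v, F v (Φ (q (Function.update n l t) v) x) := fun t =>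
        (hPU _ _ (hag t)).symm
      have e2 : ∀ t, errb Φ ℓ R H S (q (Function.update n' l t)) x =
          errb Φ ℓ R H S (q (Function.update n l t)) x := fun t =>
        (hEU _ _ (hag t)).symm
      simp only [e1, e2] at h9
      exact h9
    · have hb1 : badl ℓ C R S D q l n = 1 := by
        unfold badl
        rw [if_neg hgood]
      rw [hb1]
      have h1 : |(N l : ℝ)⁻¹ * ∑ t ∈ Finset.range (N l),
          ∏ v, F v (Φ (q (Function.update n l t) v) x)| ≤ 1 := by
        rw [abs_mul, abs_of_pos (inv_pos.2 hNlpos)]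
        have h2 : |∑ t ∈ Finset.range (N l),
            ∏ v, F v (Φ (q (Function.update n l t) v) x)| ≤ N l := by
          refine (Finset.abs_sum_le_sum_abs _ _).trans ?_
          refine (Finset.sum_le_sum (g := fun _ => (1 : ℝ)) fun t _ =>
            prod_abs_le (Φ := Φ) (V := Finset.univ) (fun w _ => hF1 w) _ x).trans (by simp)
        calc (N l : ℝ)⁻¹ * _ ≤ (N l : ℝ)⁻¹ * N l :=
              mul_le_mul_of_nonneg_left h2 (inv_pos.2 hNlpos).le
          _ = 1 := inv_mul_cancel₀ hNlpos.ne'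
      have h3 : 0 ≤ (N l : ℝ)⁻¹ * ∑ t ∈ Finset.range (N l),
          errb Φ ℓ R H S (q (Function.update n l t)) x :=
        mul_nonneg (inv_pos.2 hNlpos).le (Finset.sum_nonneg fun t _ => herr0 _)
      linarith
  rw [bx_slice hN1 l]
  refine bx_abs.trans ((bx_mono_of hline).trans ?_)
  rw [bx_add, bx_add, ← bx_slice hN1 l (fun n => errb Φ ℓ R H S (q n) x)]
  refine add_le_add (add_le_add (bx_const_le hη.le) le_rfl) ?_
  exact Finset.single_le_sum (f := fun l => bx k N fun n => badl ℓ C R S D q l n)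
    (fun j _ => bx_nonneg fun n => badl_nonneg C R S D q j n) hlU

end Pool.Agent.Q96.KP
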