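import Pool.Agent.Q96.KP.Multi

/-!
# Complex valued functions: convergence to zero, arbitrary positions (2)
-/

set_option autoImplicit false
set_option linter.unusedSectionVars false

open MeasureTheory Filter Topology
open scoped ENNReal

noncomputable section

namespace Pool.Agent.Q96.KP

open Pool.Agent.TH784.KE
open Pool.Agent.W761.Box (bx bxc BM Good1 good1 prod_update bxc_add bxc_sub bxc_mul bxc_norm
  bx_mono bx_mul bx_const_le int_lim_le')

variable {X : Type*} {mA mY mX : MeasurableSpace X} {μ : Measure X} [IsProbabilityMeasure μ]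
variable {G : Type*} [Group G]
variable {Φ : G →* Equiv.Perm X} {ℓ : G → ℝ}
variable {J : Type*} [DecidableEq J] [Fintype J] {k : ℕ}

/-- the position of `w` depends only on the coordinates in `U` -/
def Ind (q : (Fin k → ℕ) → J → G) (U : Finset (Fin k)) (w : J) : Prop :=
  ∀ n n' : Fin k → ℕ, (∀ l ∈ U, n l = n' l) → q n w = q n' w

/-- condition on a real function -/
def AdmR (μ : Measure X) (mA mY : MeasurableSpace X) (Φ : G →* Equiv.Perm X) (S : Finset J)
    (q : (Fin k → ℕ) → J → G) (U : Finset (Fin k)) (good : J → Prop)
    (v : J) (f : X → ℝ) : Prop :=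
  (∀ x, |f x| ≤ 1) ∧ (v ∈ S → (∃ r : G, Measurable[cm mA Φ r] f) ∧ Van μ mY f ∧
    (¬ good v → Nice μ mA Φ f)) ∧
    (v ∉ S → Measurable[mY] f ∧ (Ind q U v ∨ ∃ c, ∀ x, f x = c))

/-- condition on a complex function -/
def AdmZ {mX : MeasurableSpace X} (μ : Measure X) (mA mY : MeasurableSpace X)
    (Φ : G →* Equiv.Perm X) (S : Finset J)
    (q : (Fin k → ℕ) → J → G) (U : Finset (Fin k)) (good : J → Prop)
    (v : J) (F : X → ℂ) : Prop :=
  @BM X mX F ∧
    (v ∈ S → (∀ B : Set X, MeasurableSet[mY] B → ∫ x in B, F x ∂μ = 0) ∧
      (¬ good v → Reg μ mA Φ F)) ∧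
    (v ∉ S → Measurable[mY] F ∧ (Ind q U v ∨ ∃ c, ∀ x, F x = c))

theorem AdmR.bm (hK : KExt μ mA mY Φ ℓ) {S : Finset J} {q : (Fin k → ℕ) → J → G}
    {U : Finset (Fin k)} {good : J → Prop} {v : J} {f : X → ℝ}
    (hf : AdmR μ mA mY Φ S q U good v f) : @BM X mX fun x => (f x : ℂ) := by
  have hm : Measurable[mX] f := by
    by_cases hv : v ∈ S
    · obtain ⟨⟨r, hr⟩, _⟩ := hf.2.1 hv
      exact hr.mono (cm_le hK.fl hK.filt r) le_rfl
    · exact (hf.2.2 hv).1.mono (hK.base.le.trans hK.filt.le) le_rfl
  exact ⟨Complex.measurable_ofReal.comp hm, 1, fun x => by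
    rw [Complex.norm_real]
    exact hf.1 x⟩

/-- **Convergence to zero.** -/
theorem zero_complex' (hK : KExt μ mA mY Φ ℓ) {s₀ : G} (hs₀ : 0 < ℓ s₀)
    {S : Finset J} {q : (Fin k → ℕ) → J → G} {D : J → Finset (Fin k)} {U : Finset (Fin k)}
    (hP : Pos ℓ S q D U) (good : J → Prop)
    (hgood : ∀ v ∈ S, good v → Good1 μ fun n => (Φ (q n v) : X → X))
    {F : J → X → ℂ} (hF : ∀ v, AdmZ μ mA mY Φ S q U good v (F v)) :
    Cz μ (fun v n => (Φ (q n v) : X → X)) F := by
  classical
  set g : J → (Fin k → ℕ) → X → X := fun v n => (Φ (q n v) : X → X) with hg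
  have hgMP : ∀ w n, MeasurePreserving (g w n) μ μ := fun w n => hK.fl (q n w)
  have key : ∀ (B : Finset J) (F : J → X → ℂ),
      (∀ v ∈ B, AdmZ μ mA mY Φ S q U good v (F v)) →
      (∀ v ∉ B, ∃ f : X → ℝ, AdmR μ mA mY Φ S q U good v f ∧ F v = fun x => (f x : ℂ)) →
      Cz μ g F := by
    intro B
    induction B using Finset.induction_on with
    | empty =>
      intro F _ hF2
      choose f hf hFf using fun v => hF2 v (Finset.notMem_empty v)
      have h4 := zero_real' hK hs₀ hP good hgood (fun v => (hf v).1) (fun v hv => (hf v).2.1 hv)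
        (fun v hv => ((hf v).2.2 hv).1) (fun w hw => ((hf w).2.2 hw).2)
      filter_upwards [h4] with x hx
      have h5 := (Complex.continuous_ofReal.tendsto _).comp hx
      rw [Complex.ofReal_zero] at h5
      refine h5.congr fun N => ?_
      rw [Function.comp_apply, ← bxc_cast]
      congr 1
      funext n
      push_cast
      refine Finset.prod_congr rfl fun v _ => ?_
      rw [hFf v]
    | insert v B hv ih =>
      intro F hF1 hF2
      have hBMall : ∀ w, BM (F w) := by
        intro w
        by_cases hw : w ∈ insert v B
        · exact (hF1 w hw).1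
        · obtain ⟨f, hf, e⟩ := hF2 w hw
          rw [e]
          exact hf.bm hK
      have hcast : ∀ f : X → ℝ, AdmR μ mA mY Φ S q U good v f →
          Cz μ g (Function.update F v fun x => (f x : ℂ)) := by
        intro f hf
        apply ih
        · intro w hw
          have hwv : w ≠ v := fun e => hv (e ▸ hw)
          rw [Function.update_of_ne hwv]
          exact hF1 w (Finset.mem_insert_of_mem hw)
        · intro w hw
          by_cases hwv : w = v
          · subst hwv
            exact ⟨f, hf, by rw [Function.update_self]⟩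
          · rw [Function.update_of_ne hwv]
            apply hF2
            intro hmem
            rcases Finset.mem_insert.mp hmem with h5 | h5
            · exact hwv h5
            · exact hw h5
      have hcomb : ∀ (C : ℝ) (f₁ f₂ : X → ℝ), AdmR μ mA mY Φ S q U good v f₁ →
          AdmR μ mA mY Φ S q U good v f₂ →
          Cz μ g (Function.update F v (((C : ℂ) • fun x => (f₁ x : ℂ)) +
            ((C : ℂ) * Complex.I) • fun x => (f₂ x : ℂ))) := by
        intro C f₁ f₂ hf₁ hf₂
        exact Cz_add (Cz_smul _ (hcast f₁ hf₁)) (Cz_smul _ (hcast f₂ hf₂))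
      obtain ⟨hBM, hSv, hSv'⟩ := hF1 v (Finset.mem_insert_self v B)
      obtain ⟨hFm, C₀, hC₀⟩ := hBM
      set C : ℝ := |C₀| + 1 with hC
      have hCpos : 0 < C := by positivity
      have hCb : ∀ x, ‖F v x‖ ≤ C := fun x =>
        ((hC₀ x).trans (le_abs_self _)).trans (by rw [hC]; linarith)
      set f₁ : X → ℝ := fun x => (F v x).re / C with hf₁
      set f₂ : X → ℝ := fun x => (F v x).im / C with hf₂
      have hb₁ : ∀ x, |f₁ x| ≤ 1 := by
        intro x
        rw [hf₁]
        show |(F v x).re / C| ≤ 1
        rw [abs_div, abs_of_pos hCpos, div_le_one hCpos]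
        exact (Complex.abs_re_le_norm _).trans (hCb x)
      have hb₂ : ∀ x, |f₂ x| ≤ 1 := by
        intro x
        rw [hf₂]
        show |(F v x).im / C| ≤ 1
        rw [abs_div, abs_of_pos hCpos, div_le_one hCpos]
        exact (Complex.abs_im_le_norm _).trans (hCb x)
      have hm₁ : Measurable[mX] f₁ := (Complex.measurable_re.comp hFm).div_const _
      have hm₂ : Measurable[mX] f₂ := (Complex.measurable_im.comp hFm).div_const _
      have hdec : ∀ x, F v x = (C : ℂ) * (f₁ x : ℂ) + (C : ℂ) * Complex.I * (f₂ x : ℂ) := by
        intro x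
        have hC' : (C : ℂ) ≠ 0 := by exact_mod_cast hCpos.ne'
        rw [hf₁, hf₂]
        push_cast
        field_simp
        exact (Complex.re_add_im (F v x)).symm.trans (by ring)
      have hgoal : Cz μ g (Function.update F v (F v)) := by
        by_cases hvS : v ∈ S
        · have hFi : Integrable (F v) μ := Integrable.of_bound hFm.aestronglyMeasurable C
            (Eventually.of_forall hCb)
          have hV₁ : Van μ mY f₁ := by
            intro B hB
            have h4 := (hSv hvS).1 B hB
            have h5 : ∫ x in B, f₁ x ∂μ = (∫ x in B, F v x ∂μ).re / C := by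
              rw [hf₁, integral_div]
              congr 1
              exact integral_re hFi.integrableOn
            rw [h5, h4]
            simp
          have hV₂ : Van μ mY f₂ := by
            intro B hB
            have h4 := (hSv hvS).1 B hB
            have h5 : ∫ x in B, f₂ x ∂μ = (∫ x in B, F v x ∂μ).im / C := by
              rw [hf₂, integral_div]
              congr 1
              exact integral_im hFi.integrableOn
            rw [h5, h4]
            simp
          by_cases hgv : good v
          · have hgd : Good1 μ (g v) := hgood v hvS hgv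
            have hBMv : BM (F v) := ⟨hFm, C, hCb⟩
            refine Cz_closed' hgMP hBMall hgd hBMv ?_
            intro ε hε
            have happ : ∀ f : X → ℝ, Measurable[mX] f → (∀ x, |f x| ≤ 1) → Van μ mY f →
                ∃ g' : X → ℝ, AdmR μ mA mY Φ S q U good v g' ∧
                  ∫ x, |f x - g' x| ∂μ ≤ ε / (2 * C) := by
              intro f hfm hfb hfV
              obtain ⟨r, hr⟩ := dense_future hK.fl hK.filt hs₀ hK.gen hfm hfb
                (show (0 : ℝ) < ε / (2 * C) by positivity)
              obtain ⟨g', hg', hge⟩ := exists_CE (cm_le hK.fl hK.filt r) hfm hfb (μ := μ)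
              refine ⟨g', ⟨hg'.2.1, fun _ => ⟨⟨r, hg'.1⟩, van_CE (cm_le hK.fl hK.filt r)
                (base_le hK.base r) hfm hfb hg' hfV, fun h => absurd hgv h⟩,
                fun h => absurd hvS h⟩, ?_⟩
              refine le_trans (le_of_eq ?_) hr
              apply integral_congr_ae
              filter_upwards [hge] with x hx
              rw [hx]
            obtain ⟨g₁, hg₁, hg₁'⟩ := happ f₁ hm₁ hb₁ hV₁
            obtain ⟨g₂, hg₂, hg₂'⟩ := happ f₂ hm₂ hb₂ hV₂
            obtain ⟨hg₁m, -⟩ := hg₁.bm hK
            obtain ⟨hg₂m, -⟩ := hg₂.bm hK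
            have hg₁r : Measurable[mX] g₁ := by
              have := Complex.measurable_re.comp hg₁m
              exact this
            have hg₂r : Measurable[mX] g₂ := by
              have := Complex.measurable_re.comp hg₂m
              exact this
            refine ⟨((C : ℂ) • fun x => (g₁ x : ℂ)) +
              ((C : ℂ) * Complex.I) • fun x => (g₂ x : ℂ),
              ⟨(hg₁m.const_smul _).add (hg₂m.const_smul _), 2 * C, fun x => ?_⟩, ?_,
              hcomb C g₁ g₂ hg₁ hg₂⟩
            · simp only [Pi.add_apply, Pi.smul_apply, smul_eq_mul]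
              refine (norm_add_le _ _).trans ?_
              rw [norm_mul, norm_mul, norm_mul, Complex.norm_I, Complex.norm_real,
                Complex.norm_real, Complex.norm_real, Real.norm_of_nonneg hCpos.le,
                Real.norm_eq_abs, Real.norm_eq_abs]
              have a1 := hg₁.1 x
              have a2 := hg₂.1 x
              nlinarith [abs_nonneg (g₁ x), abs_nonneg (g₂ x)]
            · have hi₁ : Integrable (fun x => |f₁ x - g₁ x|) μ := by
                refine Integrable.of_bound (hm₁.sub hg₁r).abs.aestronglyMeasurable 2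
                  (Eventually.of_forall fun x => ?_)
                rw [Real.norm_eq_abs, abs_abs]
                exact (abs_sub _ _).trans (by linarith [hb₁ x, hg₁.1 x])
              have hi₂ : Integrable (fun x => |f₂ x - g₂ x|) μ := by
                refine Integrable.of_bound (hm₂.sub hg₂r).abs.aestronglyMeasurable 2
                  (Eventually.of_forall fun x => ?_)
                rw [Real.norm_eq_abs, abs_abs]
                exact (abs_sub _ _).trans (by linarith [hb₂ x, hg₂.1 x])
              have hle : ∀ x, ‖F v x - (((C : ℂ) • fun x => (g₁ x : ℂ)) +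
                  ((C : ℂ) * Complex.I) • fun x => (g₂ x : ℂ)) x‖ ≤
                  C * |f₁ x - g₁ x| + C * |f₂ x - g₂ x| := by
                intro x
                simp only [Pi.add_apply, Pi.smul_apply, smul_eq_mul]
                rw [hdec x]
                have e : (C : ℂ) * (f₁ x : ℂ) + (C : ℂ) * Complex.I * (f₂ x : ℂ) -
                    ((C : ℂ) * (g₁ x : ℂ) + (C : ℂ) * Complex.I * (g₂ x : ℂ)) =
                    (C : ℂ) * ((f₁ x - g₁ x : ℝ) : ℂ) +
                      (C : ℂ) * Complex.I * ((f₂ x - g₂ x : ℝ) : ℂ) := by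
                  push_cast
                  ring
                rw [e]
                refine (norm_add_le _ _).trans ?_
                rw [norm_mul, norm_mul, norm_mul, Complex.norm_I, Complex.norm_real,
                  Complex.norm_real, Complex.norm_real, Real.norm_of_nonneg hCpos.le,
                  Real.norm_eq_abs, Real.norm_eq_abs, mul_one]
              refine (integral_mono_of_nonneg (Eventually.of_forall fun x => norm_nonneg _)
                ((hi₁.const_mul C).add (hi₂.const_mul C)) (Eventually.of_forall hle)).trans ?_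
              rw [integral_add' (hi₁.const_mul C) (hi₂.const_mul C), integral_const_mul,
                integral_const_mul]
              calc C * ∫ x, |f₁ x - g₁ x| ∂μ + C * ∫ x, |f₂ x - g₂ x| ∂μ ≤
                  C * (ε / (2 * C)) + C * (ε / (2 * C)) :=
                    add_le_add (mul_le_mul_of_nonneg_left hg₁' hCpos.le)
                      (mul_le_mul_of_nonneg_left hg₂' hCpos.le)
                _ = ε := by field_simp; norm_num
          · have hReg := (hSv hvS).2 hgv
            have hR₁ : Reg μ mA Φ f₁ := (hReg.clm hFi Complex.reCLM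
              (fun z => Complex.abs_re_le_norm z)).div hCpos
            have hR₂ : Reg μ mA Φ f₂ := (hReg.clm hFi Complex.imCLM
              (fun z => Complex.abs_im_le_norm z)).div hCpos
            refine Cz_unif hgMP hBMall ?_
            intro ε hε
            have happ : ∀ f : X → ℝ, Measurable[mX] f → (∀ x, |f x| ≤ 1) → Van μ mY f →
                Reg μ mA Φ f →
                ∃ g' : X → ℝ, AdmR μ mA mY Φ S q U good v g' ∧
                  ∀ᵐ x ∂μ, |f x - g' x| ≤ ε / (2 * C) := by
              intro f hfm hfb hfV hfR
              obtain ⟨r, r', hr⟩ := hfR (ε / (2 * C)) (by positivity)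
              obtain ⟨g', hg', hge⟩ := exists_CE (cm_le hK.fl hK.filt r) hfm hfb (μ := μ)
              refine ⟨g', ⟨hg'.2.1, fun _ => ⟨⟨r, hg'.1⟩, van_CE (cm_le hK.fl hK.filt r)
                (base_le hK.base r) hfm hfb hg' hfV, fun _ ε' hε' => ?_⟩,
                fun h => absurd hvS h⟩, ?_⟩
              · obtain ⟨s'', s, hs⟩ := hfR ε' hε'
                have hs' : ∀ᵐ x ∂μ, |(μ[f | cm mA Φ s]) x| ≤ ε' := by
                  filter_upwards [hs] with x hx
                  exact hx.2
                obtain ⟨s', hs'1⟩ := exists_lower (J := Bool) hK.filt hs₀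
                  (fun b => if b then s else r)
                have h1 : ℓ s' ≤ ℓ s := hs'1 true
                have h2 : ℓ s' ≤ ℓ r := hs'1 false
                have h3 := tower_small hK.fl hK.filt h1 hs'
                have h4 : μ[g' | cm mA Φ s'] =ᵐ[μ] μ[f | cm mA Φ s'] :=
                  (condExp_congr_ae hge).trans (condExp_condExp_of_le (cm_mono hK.filt h2)
                    (cm_le hK.fl hK.filt r))
                refine ⟨s', ?_⟩
                filter_upwards [h3, h4] with x hx1 hx2
                rw [hx2]
                exact hx1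
              · filter_upwards [hge, hr] with x hx1 hx2
                rw [hx1]
                exact hx2.1
            obtain ⟨g₁, hg₁, hg₁'⟩ := happ f₁ hm₁ hb₁ hV₁ hR₁
            obtain ⟨g₂, hg₂, hg₂'⟩ := happ f₂ hm₂ hb₂ hV₂ hR₂
            refine ⟨((C : ℂ) • fun x => (g₁ x : ℂ)) +
              ((C : ℂ) * Complex.I) • fun x => (g₂ x : ℂ), ?_, hcomb C g₁ g₂ hg₁ hg₂⟩
            filter_upwards [hg₁', hg₂'] with x hx1 hx2
            simp only [Pi.add_apply, Pi.smul_apply, smul_eq_mul]
            rw [hdec x]
            have e : (C : ℂ) * (f₁ x : ℂ) + (C : ℂ) * Complex.I * (f₂ x : ℂ) -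
                ((C : ℂ) * (g₁ x : ℂ) + (C : ℂ) * Complex.I * (g₂ x : ℂ)) =
                (C : ℂ) * ((f₁ x - g₁ x : ℝ) : ℂ) +
                  (C : ℂ) * Complex.I * ((f₂ x - g₂ x : ℝ) : ℂ) := by
              push_cast
              ring
            rw [e]
            refine (norm_add_le _ _).trans ?_
            rw [norm_mul, norm_mul, norm_mul, Complex.norm_I, Complex.norm_real,
              Complex.norm_real, Complex.norm_real, Real.norm_of_nonneg hCpos.le,
              Real.norm_eq_abs, Real.norm_eq_abs, mul_one]
            calc C * |f₁ x - g₁ x| + C * |f₂ x - g₂ x| ≤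
                C * (ε / (2 * C)) + C * (ε / (2 * C)) :=
                  add_le_add (mul_le_mul_of_nonneg_left hx1 hCpos.le)
                    (mul_le_mul_of_nonneg_left hx2 hCpos.le)
              _ = ε := by field_simp; norm_num
        · obtain ⟨hFY, hInd⟩ := hSv' hvS
          have a₁ : AdmR μ mA mY Φ S q U good v f₁ := ⟨hb₁, fun h => absurd h hvS, fun _ =>
            ⟨(Complex.measurable_re.comp hFY).div_const _, hInd.imp_right fun ⟨c, hc⟩ =>
              ⟨c.re / C, fun x => by rw [hf₁]; simp only [hc]⟩⟩⟩
          have a₂ : AdmR μ mA mY Φ S q U good v f₂ := ⟨hb₂, fun h => absurd h hvS, fun _ =>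
            ⟨(Complex.measurable_im.comp hFY).div_const _, hInd.imp_right fun ⟨c, hc⟩ =>
              ⟨c.im / C, fun x => by rw [hf₂]; simp only [hc]⟩⟩⟩
          have e : F v = ((C : ℂ) • fun x => (f₁ x : ℂ)) +
              ((C : ℂ) * Complex.I) • fun x => (f₂ x : ℂ) := by
            funext x
            simp only [Pi.add_apply, Pi.smul_apply, smul_eq_mul]
            exact hdec x
          have h6 := hcomb C f₁ f₂ a₁ a₂
          rw [← e] at h6
          exact h6
      rwa [Function.update_eq_self] at hgoal
  exact key Finset.univ F (fun v _ => hF v) fun v hv => absurd (Finset.mem_univ v) hv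

end Pool.Agent.Q96.KP
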