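import Pool.Agent.Q96.KP.PolyK
import Pool.Agent.Q96.KP.MultiC
import Pool.Agent.TH784.KE.One

/-!
# The base is characteristic: polynomial positions
-/

set_option autoImplicit false
set_option linter.unusedSectionVars false

open MeasureTheory Filter Topology

noncomputable section

namespace Pool.Agent.Q96.KP

open Pool.Agent.TH784.KE
open Pool.Agent.W761.Box (bx bxc BM Good1 bx_add bx_mul bx_sum bx_mono bx_abs bx_const_le
  bx_nonneg dz orb)
open Pool.Agent.TH784.AA (bxs mem_bxs vol)

theorem pos_of_poly {k : ℕ} {G : Type*} [Group G] {ℓ : G → ℝ} {J : Type*} [DecidableEq J]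
    {q : (Fin k → ℕ) → J → G} {D : J → Finset (Fin k)} {Λ : J → MvPolynomial (Fin k) ℝ}
    (hq : ∀ n v, ℓ (q n v) = ev (Λ v) n)
    (hdep : ∀ v, ∀ n n' : Fin k → ℕ, (∀ l ∈ D v, n l = n' l) → q n v = q n' v)
    (hdeg : ∀ v, ∀ l ∈ D v, 1 ≤ (Λ v).degreeOf l) (hDne : ∀ v, (D v).Nonempty)
    (hdiff : ∀ v w, v ≠ w → 0 < (Λ v - Λ w).totalDegree) (S : Finset J) (hS : S.Nonempty) :
    Pos ℓ S q D (S.biUnion D) := by
  classical
  refine ⟨?_, fun v _ => hdep v, fun v hv => Finset.subset_biUnion_of_mem D hv,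
    fun l hl => ?_, fun R hR δ hδ => ?_, fun R hR v _ w _ hvw => ?_⟩
  · obtain ⟨v, hv⟩ := hS
    obtain ⟨l, hl⟩ := hDne v
    exact ⟨l, Finset.mem_biUnion.2 ⟨v, hv, hl⟩⟩
  · obtain ⟨v, hv, h⟩ := Finset.mem_biUnion.1 hl
    exact ⟨v, hv, h⟩
  · have hk : ∀ (v : J) (l : Fin k), ∃ (B : (Fin k → ℕ) → Prop) (C : ℕ), Dens B ∧
        (l ∈ D v → ∀ n, ¬ B n → Mult C R fun t => ℓ (q (Function.update n l t) v)) := by
      intro v l
      by_cases hl : l ∈ D v
      · obtain ⟨B, hB, hBC⟩ := (poly_main _ (Λ v) le_rfl).2 l (hdeg v l hl)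
        obtain ⟨C, -, hC⟩ := hBC R hR
        refine ⟨B, C, hB, fun _ n hn => ?_⟩
        have h1 := hC n hn
        simpa only [hq] using h1
      · exact ⟨fun _ => False, 0, dens_false, fun h => absurd h hl⟩
    choose B C hB hBC using hk
    refine ⟨1 + ∑ v ∈ S, ∑ l, C v l, by omega, ?_⟩
    have hlim : Tendsto (fun N => ∑ v ∈ S, ∑ l, bx k N
        (fun n => if B v l n then (1 : ℝ) else 0)) atTop (𝓝 0) := by
      have h5 : Tendsto (fun N => ∑ v ∈ S, ∑ l, bx k N
          (fun n => if B v l n then (1 : ℝ) else 0)) atTop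
          (𝓝 (∑ v ∈ S, ∑ _l : Fin k, (0 : ℝ))) := by
        refine tendsto_finsetSum _ fun v _ => tendsto_finsetSum _ fun l _ => ?_
        exact hB v l
      rw [Finset.sum_eq_zero fun v _ => Finset.sum_const_zero] at h5
      exact h5
    have hev := (tendsto_order.mp hlim).2 δ hδ
    filter_upwards [hev] with N hN l hl
    have h1 : ∀ n : Fin k → ℕ, badl ℓ (1 + ∑ v ∈ S, ∑ l, C v l) R S D q l n ≤
        ∑ v ∈ S, (if B v l n then (1 : ℝ) else 0) := by
      intro n
      unfold badl
      split_ifs with hgood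
      · exact Finset.sum_nonneg fun v _ => by split_ifs <;> norm_num
      · push Not at hgood
        obtain ⟨v, hv, hlv, hnot⟩ := hgood
        have hBv : B v l n := by
          by_contra hcon
          apply hnot
          refine (hBC v l hlv n hcon).mono ?_
          have h2 : C v l ≤ ∑ l, C v l :=
            Finset.single_le_sum (f := fun l => C v l) (fun _ _ => Nat.zero_le _)
              (Finset.mem_univ l)
          have h3 : ∑ l, C v l ≤ ∑ v ∈ S, ∑ l, C v l :=
            Finset.single_le_sum (f := fun v => ∑ l, C v l) (fun _ _ => Nat.zero_le _) hv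
          omega
        have h4 : (if B v l n then (1 : ℝ) else 0) ≤ ∑ v ∈ S, (if B v l n then (1 : ℝ) else 0) :=
          Finset.single_le_sum (f := fun v => if B v l n then (1 : ℝ) else 0)
            (fun _ _ => by split_ifs <;> norm_num) hv
        rw [if_pos hBv] at h4
        exact h4
    have h5 : bx k N (fun n => badl ℓ (1 + ∑ v ∈ S, ∑ l, C v l) R S D q l n) ≤
        ∑ v ∈ S, bx k N (fun n => if B v l n then (1 : ℝ) else 0) := by
      refine (bx_mono h1).trans (le_of_eq ?_)
      rw [bx_sum]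
    refine (h5.trans ?_).trans hN.le
    refine Finset.sum_le_sum fun v _ => ?_
    exact Finset.single_le_sum (f := fun l => bx k N (fun n => if B v l n then (1 : ℝ) else 0))
      (fun l _ => bx_nonneg fun n => by split_ifs <;> norm_num) (Finset.mem_univ l)
  · have h1 := (poly_main _ (Λ v - Λ w) le_rfl).1 (hdiff v w hvw) R hR
    unfold Dens at h1
    refine h1.congr fun N => ?_
    congr 1
    funext n
    have e : ℓ (q n v) - ℓ (q n w) = ev (Λ v - Λ w) n := by
      rw [hq, hq]
      unfold ev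
      rw [map_sub]
    rw [e]

variable {X : Type*} {mA mY mX : MeasurableSpace X} {μ : Measure X} [IsProbabilityMeasure μ]
variable {G : Type*} [Group G]
variable {Φ : G →* Equiv.Perm X} {ℓ : G → ℝ}
variable {J : Type*} [DecidableEq J] [Fintype J] {k : ℕ}

/-- **The base is characteristic.** -/
theorem base_char (hK : KExt μ mA mY Φ ℓ) {s₀ : G} (hs₀ : 0 < ℓ s₀)
    {q : (Fin k → ℕ) → J → G} {D : J → Finset (Fin k)}
    (hdep : ∀ v, ∀ n n' : Fin k → ℕ, (∀ l ∈ D v, n l = n' l) → q n v = q n' v)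
    (hPos : ∀ S : Finset J, S.Nonempty → Pos ℓ S q D (S.biUnion D))
    (good : J → Prop) (hgood : ∀ v, good v → Good1 μ fun n => (Φ (q n v) : X → X))
    {f e : J → X → ℂ} (hf : ∀ j, @BM X mX (f j)) (he : ∀ j, @BM X mX (e j))
    (heY : ∀ j, Measurable[mY] (e j))
    (hfe : ∀ j, ∀ B : Set X, MeasurableSet[mY] B → ∫ x in B, (f j x - e j x) ∂μ = 0)
    (hreg : ∀ j, ¬ good j → Reg μ mA Φ fun x => f j x - e j x)
    (hcase : (∀ i j, D i = D j) ∨ ∀ j, ∃ c, ∀ x, e j x = c) :
    ∀ᵐ x ∂μ, Tendsto (fun N => bxc k N fun n => (∏ j, f j (Φ (q n j) x) -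
      ∏ j, e j (Φ (q n j) x))) atTop (𝓝 0) := by
  classical
  have key : ∀ t : Finset J, t ≠ ∅ → ∀ᵐ x ∂μ, Tendsto (fun N => bxc k N fun n =>
      (∏ j ∈ t, (f j (Φ (q n j) x) - e j (Φ (q n j) x))) *
        ∏ j ∈ Finset.univ \ t, e j (Φ (q n j) x)) atTop (𝓝 0) := by
    intro t ht
    have htn := Finset.nonempty_of_ne_empty ht
    obtain ⟨j₀, hj₀⟩ := id htn
    have hz := zero_complex' hK hs₀ (hPos t htn) good (fun v _ => hgood v)
      (F := fun j => if j ∈ t then (fun x => f j x - e j x) else e j) (fun v => by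
        by_cases hv : v ∈ t
        · simp only [hv, if_true]
          obtain ⟨m₁, C₁, b₁⟩ := hf v
          obtain ⟨m₂, C₂, b₂⟩ := he v
          exact ⟨⟨m₁.sub m₂, C₁ + C₂, fun x => (norm_sub_le _ _).trans
            (add_le_add (b₁ x) (b₂ x))⟩, fun _ => ⟨hfe v, hreg v⟩, fun h => absurd hv h⟩
        · simp only [hv, if_false]
          refine ⟨he v, fun h => absurd h hv, fun _ => ⟨heY v, ?_⟩⟩
          rcases hcase with h | h
          · left
            intro n n' hn
            refine hdep v n n' fun l hl => hn l ?_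
            exact Finset.mem_biUnion.2 ⟨j₀, hj₀, (h v j₀) ▸ hl⟩
          · exact Or.inr (h v))
    filter_upwards [hz] with x hx
    refine hx.congr fun N => ?_
    congr 1
    funext n
    rw [← Finset.prod_mul_prod_compl t, ← Finset.compl_eq_univ_sdiff]
    congr 1
    · refine Finset.prod_congr rfl fun j hj => ?_
      rw [if_pos hj]
    · refine Finset.prod_congr rfl fun j hj => ?_
      rw [if_neg (Finset.mem_compl.1 hj)]
  have hall : ∀ᵐ x ∂μ, ∀ t : Finset J, t ≠ ∅ → Tendsto (fun N => bxc k N fun n =>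
      (∏ j ∈ t, (f j (Φ (q n j) x) - e j (Φ (q n j) x))) *
        ∏ j ∈ Finset.univ \ t, e j (Φ (q n j) x)) atTop (𝓝 0) := by
    rw [ae_all_iff]
    intro t
    by_cases ht : t = ∅
    · exact Eventually.of_forall fun x h => absurd ht h
    · filter_upwards [key t ht] with x hx _
      exact hx
  filter_upwards [hall] with x hx
  have hsum := tendsto_finsetSum ((Finset.univ : Finset J).powerset.erase ∅) fun t ht =>
    hx t (Finset.ne_of_mem_erase ht)
  rw [Finset.sum_const_zero] at hsum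
  refine hsum.congr fun N => ?_
  rw [← bxc_sum]
  congr 1
  funext n
  have h1 := Finset.prod_add (fun j => f j (Φ (q n j) x) - e j (Φ (q n j) x))
    (fun j => e j (Φ (q n j) x)) (Finset.univ : Finset J)
  have h2 : ∏ j, (f j (Φ (q n j) x) - e j (Φ (q n j) x) + e j (Φ (q n j) x)) =
      ∏ j, f j (Φ (q n j) x) := Finset.prod_congr rfl fun j _ => by ring
  rw [h2, ← Finset.add_sum_erase _ _ (Finset.empty_mem_powerset _)] at h1
  rw [h1, Finset.prod_empty, one_mul, Finset.sdiff_empty]
  ring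

end Pool.Agent.Q96.KP
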