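import Pool.Agent.Q96.KP.Shift

/-!
# Kolmogorov extensions: polynomial exponents, unrestricted boxes
-/

set_option autoImplicit false
set_option linter.unusedSectionVars false

open MeasureTheory Filter Topology
open scoped ENNReal

noncomputable section

namespace Pool.Agent.Q96.KP

open Pool.Agent.TH784.KE
open Pool.Agent.W761.Box (bx bxc BM Good1 bx_add bx_mul bx_sum bx_mono bx_abs bx_const_le
  bx_nonneg dz orb)

/-- `t_1^(P_1(m)) ⋯ t_d^(P_d(m))` -/
def sj {G : Type*} [Group G] {d k : ℕ} (t : Fin d → G) (P : Fin d → MvPolynomial (Fin k) ℤ)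
    (m : Fin k → ℕ) : G :=
  (List.ofFn fun i => t i ^ MvPolynomial.eval (fun l => ((m l : ℕ) : ℤ)) (P i)).prod

/-- the level polynomial -/
def lev {G : Type*} (ℓ : G → ℝ) {d k : ℕ} (t : Fin d → G)
    (P : Fin d → MvPolynomial (Fin k) ℤ) : MvPolynomial (Fin k) ℝ :=
  ∑ i, MvPolynomial.C (ℓ (t i)) * MvPolynomial.map (Int.castRingHom ℝ) (P i)

theorem lev_eval {G : Type*} [Group G] {ℓ : G → ℝ} (hℓ : ∀ a b : G, ℓ (a * b) = ℓ a + ℓ b)
    {d k : ℕ} (t : Fin d → G) (P : Fin d → MvPolynomial (Fin k) ℤ) (m : Fin k → ℕ) :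
    ℓ (sj t P m) = ev (lev ℓ t P) m := by
  unfold sj ev lev
  rw [level_prod hℓ, map_sum]
  refine Finset.sum_congr rfl fun i _ => ?_
  rw [map_mul, MvPolynomial.eval_C, MvPolynomial.eval_map]
  congr 1
  have h := MvPolynomial.eval₂_comp_left (Int.castRingHom ℝ) (RingHom.id ℤ)
    (fun l => ((m l : ℕ) : ℤ)) (P i)
  have e1 : MvPolynomial.eval₂ (RingHom.id ℤ) (fun l => ((m l : ℕ) : ℤ)) (P i) =
      MvPolynomial.eval (fun l => ((m l : ℕ) : ℤ)) (P i) := rfl
  rw [e1, RingHom.comp_id] at h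
  have e2 : ((Int.castRingHom ℝ) ∘ fun l => ((m l : ℕ) : ℤ)) = fun l => (m l : ℝ) := by
    funext l
    simp
  rw [e2] at h
  exact h

theorem eval_congr {k : ℕ} {P : MvPolynomial (Fin k) ℤ} {D : Finset (Fin k)} (h : P.vars ⊆ D)
    {n n' : Fin k → ℕ} (hn : ∀ l ∈ D, n l = n' l) :
    MvPolynomial.eval (fun l => ((n l : ℕ) : ℤ)) P =
      MvPolynomial.eval (fun l => ((n' l : ℕ) : ℤ)) P :=
  MvPolynomial.eval₂Hom_congr' rfl (fun i hi _ => by rw [hn i (h hi)]) rfl

theorem sj_congr {G : Type*} [Group G] {d k : ℕ} (t : Fin d → G)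
    {P : Fin d → MvPolynomial (Fin k) ℤ} {D : Finset (Fin k)} (h : ∀ i, (P i).vars ⊆ D)
    {n n' : Fin k → ℕ} (hn : ∀ l ∈ D, n l = n' l) : sj t P n = sj t P n' := by
  unfold sj
  congr 2
  funext i
  rw [eval_congr (h i) hn]

theorem BM_of_memLp' {Y : Type*} [MeasurableSpace Y] {ν : Measure Y} {f : Y → ℂ}
    (hf : MemLp f ∞ ν) : ∃ g : Y → ℂ, BM g ∧ f =ᵐ[ν] g := by
  classical
  obtain ⟨g, hgm, hfg⟩ := hf.1
  have hg : MemLp g ∞ ν := (memLp_congr_ae hfg).mp hf
  obtain ⟨C, hC⟩ : ∃ C : ℝ, ∀ᵐ x ∂ν, ‖g x‖ ≤ C := by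
    have h1 : eLpNormEssSup g ν < ∞ := by
      have := hg.2
      rwa [eLpNorm_exponent_top] at this
    refine ⟨(eLpNormEssSup g ν).toReal, ?_⟩
    filter_upwards [ae_le_eLpNormEssSup (f := g) (μ := ν)] with x hx
    rw [← toReal_enorm]
    exact ENNReal.toReal_mono h1.ne hx
  refine ⟨fun x => if ‖g x‖ ≤ C then g x else 0, ⟨?_, |C|, fun x => ?_⟩, ?_⟩
  · exact Measurable.ite (measurableSet_le hgm.measurable.norm measurable_const) hgm.measurable
      measurable_const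
  · show ‖if ‖g x‖ ≤ C then g x else 0‖ ≤ |C|
    split_ifs with h
    · exact h.trans (le_abs_self _)
    · simp
  · filter_upwards [hfg, hC] with x hx hx'
    rw [hx, if_pos hx']

variable {X : Type*} {mA mY mX : MeasurableSpace X} {μ : Measure X} [IsProbabilityMeasure μ]
variable {G : Type*} [Group G]
variable {Φ : G →* Equiv.Perm X} {ℓ : G → ℝ}

/-- single averages -/
def SingleAv {X : Type*} [MeasurableSpace X] {k : ℕ} (μ : Measure X)
    (q : (Fin k → ℕ) → X → X) : Prop :=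
  ∀ H : X → ℝ, Measurable H → (∃ C : ℝ, ∀ x, |H x| ≤ C) →
    ∀ᵐ x ∂μ, ∃ L : ℝ, Tendsto (fun M : Fin k → ℕ => (∏ l, (M l : ℝ))⁻¹ *
      ∑ m ∈ Fintype.piFinset (fun l => Finset.Icc 1 (M l)), H (q m x)) atTop (𝓝 L)

theorem good_single {k : ℕ} {q : (Fin k → ℕ) → X → X} (h : SingleAv μ q) : Good1 μ q := by
  intro H hH hb
  obtain ⟨C, hC⟩ := hb
  filter_upwards [h H hH ⟨C, hC⟩] with x hx
  obtain ⟨L, hL⟩ := hx
  refine ⟨L, ?_⟩
  have h1 : Tendsto (fun M : Fin k → ℕ => av1 k M fun m => ((H (q m x) : ℝ) : ℂ)) atTop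
      (𝓝 (L : ℂ)) := by
    have h2 := (Complex.continuous_ofReal.tendsto _).comp hL
    refine h2.congr fun M => ?_
    rw [Function.comp_apply, av1]
    push_cast
    rfl
  have h3 := lim_of_av1 (C := C) (fun n => by
    rw [Complex.norm_real]
    exact hC _) h1
  simp only [bxc_cast] at h3
  exact Complex.continuous_re.tendsto _ |>.comp h3 |>.congr fun M => by simp

/-- uniform regularity relative to the base -/
def RegB {X G : Type*} [Group G] {mX : MeasurableSpace X} (μ : Measure X)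
    (mA mY : MeasurableSpace X) (Φ : G →* Equiv.Perm X) (f : X → ℂ) : Prop :=
  ∀ ε : ℝ, 0 < ε → ∃ r s : G, ∀ᵐ x ∂μ, ‖f x - (μ[f | cm mA Φ r]) x‖ ≤ ε ∧
    ‖(μ[f | cm mA Φ s]) x - (μ[f | mY]) x‖ ≤ ε

theorem reg_of_regB (hK : KExt μ mA mY Φ ℓ) {f g e : X → ℂ} (hf : Integrable f μ)
    (hfg : f =ᵐ[μ] g) (hem : Measurable[mY] e) (hei : Integrable e μ)
    (hee : e =ᵐ[μ] μ[f | mY]) (h : RegB μ mA mY Φ f) :
    Reg μ mA Φ fun x => g x - e x := by
  intro ε hε
  obtain ⟨r, s, hrs⟩ := h ε hε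
  refine ⟨r, s, ?_⟩
  have key : ∀ a : G, μ[fun x => g x - e x | cm mA Φ a] =ᵐ[μ]
      fun x => (μ[f | cm mA Φ a]) x - e x := by
    intro a
    have h1 : (fun x => g x - e x) =ᵐ[μ] f - e := by
      filter_upwards [hfg] with x hx
      rw [Pi.sub_apply, hx]
    have h2 := condExp_congr_ae (m := cm mA Φ a) h1
    have h3 := condExp_sub hf hei (cm mA Φ a)
    have h4 : μ[e | cm mA Φ a] = e := condExp_of_stronglyMeasurable
      (cm_le hK.fl hK.filt a) (hem.mono (base_le hK.base a) le_rfl).stronglyMeasurable hei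
    filter_upwards [h2, h3] with x hx2 hx3
    rw [hx2, hx3, Pi.sub_apply, h4]
  filter_upwards [hrs, key r, key s, hfg, hee] with x hx h1 h2 h3 h4
  rw [h1, h2, ← h3]
  refine ⟨?_, ?_⟩
  · have e1 : f x - e x - ((μ[f | cm mA Φ r]) x - e x) = f x - (μ[f | cm mA Φ r]) x := by ring
    rw [e1]
    exact hx.1
  · rw [h4]
    exact hx.2

theorem cond_trivial (hY : mY ≤ mX) (htriv : ∀ B, MeasurableSet[mY] B → μ B = 0 ∨ μ B = 1)
    {f : X → ℂ} (hf : @BM X mX f) :
    ∃ e : X → ℂ, @BM X mX e ∧ Measurable[mY] e ∧ e =ᵐ[μ] μ[f | mY] ∧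
      (∀ B : Set X, MeasurableSet[mY] B → ∫ x in B, (f x - e x) ∂μ = 0) ∧
      ∃ c, ∀ x, e x = c := by
  obtain ⟨hfm, C, hC⟩ := hf
  have hfi : Integrable f μ := Integrable.of_bound hfm.aestronglyMeasurable C
    (Eventually.of_forall hC)
  set c : ℂ := ∫ x, f x ∂μ with hc
  have hset : ∀ B : Set X, MeasurableSet[mY] B → ∫ x in B, c ∂μ = ∫ x in B, f x ∂μ := by
    intro B hB
    rcases htriv B hB with h | h
    · rw [Measure.restrict_zero_set h]
      simp
    · have h1 : B =ᵐ[μ] Set.univ := by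
        rw [ae_eq_univ, prob_compl_eq_zero_iff (hY _ hB)]
        exact h
      rw [setIntegral_congr_set h1, setIntegral_congr_set h1, setIntegral_univ, setIntegral_univ,
        integral_const]
      simp [hc]
  refine ⟨fun _ => c, ⟨measurable_const, ‖c‖, fun _ => le_rfl⟩, measurable_const, ?_,
    fun B hB => ?_, c, fun _ => rfl⟩
  · refine ae_eq_condExp_of_forall_setIntegral_eq hY hfi (fun s _ _ => integrableOn_const)
      (fun s hs _ => hset s hs) ?_
    have h2 : StronglyMeasurable[mY] (fun _ : X => c) := stronglyMeasurable_const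
    exact h2.aestronglyMeasurable
  · have h1 := hset B hB
    rw [integral_sub hfi.integrableOn (integrable_const c).integrableOn, ← h1, sub_self]

theorem main_boxes {d k : ℕ} {J : Type*} [Fintype J] [DecidableEq J] (hK : KExt μ mA mY Φ ℓ)
    (t : Fin d → G) (P : Fin d → J → MvPolynomial (Fin k) ℤ)
    (h1 : ∀ j, (lev ℓ t fun i => P i j).vars.Nonempty)
    (h2 : ∀ i j, (P i j).vars ⊆ (lev ℓ t fun i => P i j).vars)
    (h3 : ∀ i j, i ≠ j → ((lev ℓ t fun l => P l i) - lev ℓ t fun l => P l j).vars.Nonempty)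
    (h4 : (∀ i j, (lev ℓ t fun l => P l i).vars = (lev ℓ t fun l => P l j).vars) ∨
      ∀ B, MeasurableSet[mY] B → μ B = 0 ∨ μ B = 1)
    {f : J → X → ℂ} (hf : ∀ j, MemLp (f j) ∞ μ)
    (hslot : ∀ j, ((∀ i i', Commute (t i) (t i')) ∧ ∀ i, (P i j).totalDegree ≤ 1) ∨
      (∃ (w : G) (u : Fin k → G), ∀ m : Fin k → ℕ,
        sj t (fun i => P i j) m = w * (List.ofFn fun l => u l ^ m l).prod) ∨
      @SingleAv X mX k μ (fun m => (Φ (sj t (fun i => P i j) m) : X → X)) ∨
      RegB μ mA mY Φ (f j)) :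
    ∀ᵐ x ∂μ, Tendsto (fun M => av1 k M fun m =>
      (∏ j, f j (Φ (sj t (fun i => P i j) m) x) -
        ∏ j, (μ[f j | mY]) (Φ (sj t (fun i => P i j) m) x))) atTop (𝓝 0) := by
  classical
  set q : (Fin k → ℕ) → J → G := fun m j => sj t (fun i => P i j) m with hqdef
  set Λ : J → MvPolynomial (Fin k) ℝ := fun j => lev ℓ t fun i => P i j with hΛ
  set D : J → Finset (Fin k) := fun j => (Λ j).vars with hD
  rcases isEmpty_or_nonempty J with hJ | ⟨⟨j₀⟩⟩
  · refine Eventually.of_forall fun x => ?_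
    refine tendsto_const_nhds.congr fun M => ?_
    simp [av1]
  -- a group element of positive level
  obtain ⟨s₀, hs₀⟩ : ∃ s₀ : G, 0 < ℓ s₀ := by
    by_contra hcon
    push Not at hcon
    have hz : ∀ a, ℓ a = 0 := by
      intro a
      have e1 := hcon a
      have e2 := hcon a⁻¹
      rw [hK.filt.inv] at e2
      linarith
    obtain ⟨l, hl⟩ := h1 j₀
    have e : (lev ℓ t fun i => P i j₀) = 0 := by
      unfold lev
      refine Finset.sum_eq_zero fun i _ => ?_
      rw [hz, map_zero, zero_mul]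
    rw [e, MvPolynomial.vars_0] at hl
    exact absurd hl (Finset.notMem_empty l)
  have hq : ∀ n v, ℓ (q n v) = ev (Λ v) n := fun n v => lev_eval hK.filt.hom t _ n
  have hdep : ∀ v, ∀ n n' : Fin k → ℕ, (∀ l ∈ D v, n l = n' l) → q n v = q n' v :=
    fun v n n' h => sj_congr t (fun i => h2 i v) h
  have hdeg : ∀ v, ∀ l ∈ D v, 1 ≤ (Λ v).degreeOf l := fun v l hl =>
    Nat.one_le_iff_ne_zero.2 (MvPolynomial.mem_vars_iff_degreeOf_ne_zero.1 hl)
  have hdiff : ∀ v w, v ≠ w → 0 < (Λ v - Λ w).totalDegree := by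
    intro v w hvw
    obtain ⟨l, hl⟩ := h3 v w hvw
    refine lt_of_lt_of_le ?_ (MvPolynomial.degreeOf_le_totalDegree _ l)
    exact Nat.pos_of_ne_zero (MvPolynomial.mem_vars_iff_degreeOf_ne_zero.1 hl)
  have hPos : ∀ S : Finset J, S.Nonempty → Pos ℓ S q D (S.biUnion D) := fun S hS =>
    pos_of_poly hq hdep hdeg h1 hdiff S hS
  choose g hg hfg using fun j => BM_of_memLp' (hf j)
  have hfi : ∀ j, Integrable (f j) μ := fun j => (hf j).integrable le_top
  have hYX : mY ≤ mX := hK.base.le.trans hK.filt.le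
  have hex : ∀ j, ∃ e : X → ℂ, @BM X mX e ∧ Measurable[mY] e ∧ e =ᵐ[μ] μ[g j | mY] ∧
      (∀ B : Set X, MeasurableSet[mY] B → ∫ x in B, (g j x - e x) ∂μ = 0) ∧
      ((∀ B, MeasurableSet[mY] B → μ B = 0 ∨ μ B = 1) → ∃ c, ∀ x, e x = c) := by
    intro j
    by_cases htr : ∀ B, MeasurableSet[mY] B → μ B = 0 ∨ μ B = 1
    · obtain ⟨e, he1, he2, he3, he4, he5⟩ := cond_trivial hYX htr (hg j)
      exact ⟨e, he1, he2, he3, he4, fun _ => he5⟩
    · obtain ⟨e, he1, he2, he3, he4⟩ := exists_cond (μ := μ) hYX (hg j)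
      exact ⟨e, he1, he2, he3, he4, fun h => absurd h htr⟩
  choose e he heY hee hfe htriv using hex
  have hcase : (∀ i j, D i = D j) ∨ ∀ j, ∃ c, ∀ x, e j x = c :=
    h4.imp id fun h j => htriv j h
  have hgood : ∀ j, ¬ Good1 μ (fun n => (Φ (q n j) : X → X)) →
      Reg μ mA Φ fun x => g j x - e j x := by
    intro j hj
    rcases hslot j with ⟨hc, hlin⟩ | ⟨w, u, hwu⟩ | hs | hr
    · exfalso
      apply hj
      have h5 := Pool.Agent.W761.Box.good1 (μ := μ) (A := Fin d → ℤ)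
        (Φ := fun a => Φ (List.ofFn fun i => t i ^ a i).prod) (fun a b => by
          show Φ _ = Φ _ * Φ _
          rw [← map_mul, ← Pool.Agent.W761.Box.prod_zpow_add t hc]) (by simp)
        (fun a => hK.fl _) (fun i => MvPolynomial.coeff 0 (P i j))
        (fun (l : Fin k) i => MvPolynomial.coeff (Finsupp.single l 1) (P i j))
      refine (congrArg (Good1 μ) ?_).mp h5
      funext m
      show (Φ _ : X → X) = Φ (sj t (fun i => P i j) m)
      unfold sj
      congr 4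
      funext i
      rw [Pool.Agent.W761.Box.eval_affine _ (hlin i)]
      congr 1
      rw [Pi.add_apply, Finset.sum_apply]
      congr 1
    · exact absurd (good_orb hK.fl w u hwu) hj
    · exact absurd (good_single hs) hj
    · have hei : Integrable (e j) μ := by
        obtain ⟨hm, C, hC⟩ := he j
        exact Integrable.of_bound hm.aestronglyMeasurable C (Eventually.of_forall hC)
      exact reg_of_regB hK (hfi j) (hfg j) (heY j) hei
        ((hee j).trans (condExp_congr_ae (hfg j).symm)) hr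
  have hmain := base_char hK hs₀ hdep hPos (fun j => Good1 μ fun n => (Φ (q n j) : X → X))
    (fun v h => h) hg he heY hfe hgood hcase
  have a1 : ∀ᵐ x ∂μ, ∀ (m : Fin k → ℕ) (j : J), f j (Φ (q m j) x) = g j (Φ (q m j) x) := by
    rw [ae_all_iff]
    intro m
    rw [ae_all_iff]
    intro j
    exact (hK.fl _).quasiMeasurePreserving.ae (hfg j)
  have a2 : ∀ᵐ x ∂μ, ∀ (m : Fin k → ℕ) (j : J),
      (μ[f j | mY]) (Φ (q m j) x) = e j (Φ (q m j) x) := by
    rw [ae_all_iff]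
    intro m
    rw [ae_all_iff]
    intro j
    have h5 : μ[f j | mY] =ᵐ[μ] e j := (condExp_congr_ae (hfg j)).trans (hee j).symm
    exact (hK.fl _).quasiMeasurePreserving.ae h5
  choose _ Cg hCg using hg
  choose _ Ce hCe using he
  filter_upwards [hmain, a1, a2] with x hx hx1 hx2
  have hb : ∀ m : Fin k → ℕ, ‖∏ j, g j (Φ (q m j) x) - ∏ j, e j (Φ (q m j) x)‖ ≤
      ∏ j, Cg j + ∏ j, Ce j := by
    intro m
    refine (norm_sub_le _ _).trans (add_le_add ?_ ?_)
    · rw [norm_prod]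
      exact Finset.prod_le_prod (fun _ _ => norm_nonneg _) fun j _ => hCg j _
    · rw [norm_prod]
      exact Finset.prod_le_prod (fun _ _ => norm_nonneg _) fun j _ => hCe j _
  refine (lim_of_bxc hb hx).congr fun M => ?_
  congr 1
  funext m
  congr 1
  · exact Finset.prod_congr rfl fun j _ => (hx1 m j).symm
  · exact Finset.prod_congr rfl fun j _ => (hx2 m j).symm

end Pool.Agent.Q96.KP
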