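import Pool.Agent.TH784.KE.Line

/-!
# Sums along arbitrary sequences of positions whose levels have bounded multiplicity
-/

set_option autoImplicit false
set_option linter.unusedSectionVars false

open MeasureTheory Filter Topology

noncomputable section

namespace Pool.Agent.Q96.KP

open Pool.Agent.TH784.KE

variable {X : Type*} {mA mY mX : MeasurableSpace X} {μ : Measure X} [IsProbabilityMeasure μ]
variable {G : Type*} [Group G]
variable {Φ : G →* Equiv.Perm X} {ℓ : G → ℝ}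
variable {J : Type*} [DecidableEq J]

theorem orth_gen {ι : Type*} (hFl : Flow μ Φ) (hA : Filt mX mA Φ ℓ) (hY : Base mY mA Φ)
    {V : Finset J}
    {v : J} (hv : v ∈ V) {p : ι → J → G}
    {F H : J → X → ℝ} {W : ι → X → ℝ} {r s : G} {R : ℝ}
    (hsr : ℓ s ≤ ℓ r) (hR : ℓ r - ℓ s ≤ R) (hR0 : 0 ≤ R)
    (hF : ∀ w ∈ V, Measurable[cm mA Φ r] (F w) ∧ ∀ x, |F w x| ≤ 1)
    (hH : CE μ (cm mA Φ s) (F v) (H v)) (hW : ∀ m, Measurable[mY] (W m) ∧ ∀ x, |W m x| ≤ 1)
    (rk : ι → ℤ) (M : Finset ι)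
    (hsep : ∀ i ∈ M, ∀ j ∈ M, rk j < rk i → ℓ (p j v) + R ≤ ℓ (p i v)) :
    Orth μ rk M fun m x => DD V Φ ℓ R F H (W m) (p m) v x / 2 := by
  classical
  intro i hi M' hM' hlt c
  by_cases htop : top V ℓ R (p i) v
  swap
  · have e : ∀ x, DD V Φ ℓ R F H (W i) (p i) v x = 0 := by
      intro x
      unfold DD
      rw [if_neg htop]
    simp only [e, zero_div, zero_mul, integral_zero]
  set t : G := s * p i v with ht
  have hpast : ∀ j ∈ M', Measurable[cm mA Φ t]
      (DD V Φ ℓ R F H (W j) (p j) v) := by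
    intro j hj
    refine DD_past hA hY hv hsr hR0 (fun w hw => (hF w hw).1) hH.1 (hW j).1 ?_
    have h1 := hsep i hi j (hM' hj) (hlt j hj)
    rw [ht, hA.hom]
    linarith
  have hexp : Measurable[cm mA Φ t] fun x => Real.exp (c * ∑ j ∈ M',
      DD V Φ ℓ R F H (W j) (p j) v x / 2) := by
    have h1 : Measurable[cm mA Φ t] fun x => ∑ j ∈ M',
        DD V Φ ℓ R F H (W j) (p j) v x / 2 :=
      Finset.measurable_fun_sum _ fun j hj => (hpast j hj).div_const 2
    exact (h1.const_mul c).exp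
  have hprod : Measurable[cm mA Φ t] fun x => ∏ w ∈ V.erase v, F w (Φ (p i w) x) := by
    refine Finset.measurable_fun_prod _ fun w hw => ?_
    refine (meas_shift _ (hF w (Finset.mem_of_mem_erase hw)).1).mono
      (cm_mono hA ?_) le_rfl
    have h9 : ℓ (p i w) + R ≤ ℓ (p i v) :=
      htop w (Finset.mem_of_mem_erase hw) (Finset.ne_of_mem_erase hw)
    rw [ht, hA.hom, hA.hom]
    linarith
  have hWm : Measurable[cm mA Φ t] (W i) := (hW i).1.mono (base_le hY t) le_rfl
  have hfm : Measurable (F v) := (hF v hv).1.mono (cm_le hFl hA r) le_rfl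
  have hb : ∀ x, |((∏ w ∈ V.erase v, F w (Φ (p i w) x)) * W i x) *
      Real.exp (c * ∑ j ∈ M', DD V Φ ℓ R F H (W j) (p j) v x / 2)| ≤
      1 * Real.exp (|c| * M'.card) := by
    intro x
    rw [abs_mul, abs_mul, abs_of_pos (Real.exp_pos _)]
    have h2 := prod_abs_le (Φ := Φ) (V := V.erase v) (F := F)
      (fun w hw => (hF w (Finset.mem_of_mem_erase hw)).2) (p i) x
    have h3 := (hW i).2 x
    have h4 : |∏ w ∈ V.erase v, F w (Φ (p i w) x)| * |W i x| ≤ 1 := by
      calc _ ≤ (1 : ℝ) * 1 := mul_le_mul h2 h3 (abs_nonneg _) zero_le_one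
        _ = 1 := one_mul 1
    refine mul_le_mul h4 ?_ (Real.exp_pos _).le zero_le_one
    apply Real.exp_le_exp.2
    refine (le_abs_self _).trans ?_
    rw [abs_mul]
    refine mul_le_mul_of_nonneg_left ?_ (abs_nonneg _)
    refine (Finset.abs_sum_le_sum_abs _ _).trans ?_
    refine (Finset.sum_le_sum (g := fun _ => (1 : ℝ)) fun j hj => ?_).trans (by simp)
    rw [abs_div, abs_two]
    have := DD_abs (Φ := Φ) (ℓ := ℓ) (R := R) hv (fun w hw => (hF w hw).2) hH.2.1 (hW j).2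
      (p j) x
    linarith
  have key := orth_shift hFl hA hfm hH (p i v) ((hprod.mul hWm).mul hexp) hb
  have e : ∀ x, DD V Φ ℓ R F H (W i) (p i) v x / 2 *
      Real.exp (c * ∑ j ∈ M', DD V Φ ℓ R F H (W j) (p j) v x / 2) =
      2⁻¹ * ((F v (Φ (p i v) x) - H v (Φ (p i v) x)) *
        ((((∏ w ∈ V.erase v, F w (Φ (p i w) x)) * W i x)) *
        Real.exp (c * ∑ j ∈ M', DD V Φ ℓ R F H (W j) (p j) v x / 2))) := by
    intro x
    conv_lhs =>
      enter [1, 1]
      unfold DD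
    rw [if_pos htop]
    ring
  simp only [e]
  rw [integral_const_mul]
  refine mul_eq_zero_of_right _ ?_
  exact key

open Classical in
/-- the levels `Λ t`, `t < M`, lie in any interval of length `R` at most `C` times -/
def Mult (C : ℕ) (R : ℝ) (Λ : ℕ → ℝ) : Prop :=
  ∀ (a : ℝ) (M : ℕ), ((Finset.range M).filter fun t => a ≤ Λ t ∧ Λ t < a + R).card ≤ C

theorem Mult.mono {C C' : ℕ} {R : ℝ} {Λ : ℕ → ℝ} (h : Mult C R Λ) (hC : C ≤ C') :
    Mult C' R Λ := fun a M => (h a M).trans hC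

/-- separation after sorting -/
theorem sep_sort {C : ℕ} {R : ℝ} {Λ : ℕ → ℝ} (h : Mult C R Λ) (N : ℕ)
    {i j : Fin N} (hij : (j : ℕ) < i) (hmod : (i : ℕ) % C = (j : ℕ) % C) :
    Λ (Tuple.sort (fun t : Fin N => Λ t) j) + R ≤ Λ (Tuple.sort (fun t : Fin N => Λ t) i) := by
  classical
  set σ := Tuple.sort (fun t : Fin N => Λ t) with hσ
  have hmono : Monotone fun t : Fin N => Λ (σ t) := Tuple.monotone_sort (fun t : Fin N => Λ t)
  by_contra hcon
  rw [not_le] at hcon
  have h1 : C ∣ (i : ℕ) - j := (Nat.modEq_iff_dvd' hij.le).1 hmod.symm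
  have h2 : C ≤ (i : ℕ) - j := Nat.le_of_dvd (Nat.sub_pos_of_lt hij) h1
  have h3 := h (Λ (σ j)) N
  have h4 : (Finset.Icc j i).card ≤ C := by
    refine le_trans ?_ h3
    refine Finset.card_le_card_of_injOn (fun t => ((σ t : Fin N) : ℕ)) ?_ ?_
    · intro t ht
      rw [Finset.mem_coe, Finset.mem_Icc] at ht
      simp only [Finset.coe_filter, Finset.mem_range, Set.mem_ofPred_eq]
      refine ⟨(σ t).2, hmono ht.1, lt_of_le_of_lt (hmono ht.2) hcon⟩
    · intro a _ b _ hab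
      exact σ.injective (Fin.ext hab)
  rw [Fin.card_Icc] at h4
  omega

theorem line_bound' (hFl : Flow μ Φ) (hA : Filt mX mA Φ ℓ) (hY : Base mY mA Φ) {V : Finset J}
    {v : J} (hv : v ∈ V) {p : ℕ → J → G}
    {F H : J → X → ℝ} {W : ℕ → X → ℝ} {r s : G} {R : ℝ}
    (hsr : ℓ s ≤ ℓ r) (hR : ℓ r - ℓ s ≤ R) (hR0 : 0 ≤ R)
    (hF : ∀ w ∈ V, Measurable[cm mA Φ r] (F w) ∧ ∀ x, |F w x| ≤ 1)
    (hH : CE μ (cm mA Φ s) (F v) (H v)) (hW : ∀ m, Measurable[mY] (W m) ∧ ∀ x, |W m x| ≤ 1)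
    {L : ℕ} (hL : 0 < L) (hmult : Mult L R fun t => ℓ (p t v)) {N : ℕ} (hN : 0 < N)
    {t : ℝ} (ht : 0 ≤ t) :
    μ.real {x | t ≤ |∑ m ∈ Finset.range N,
      DD V Φ ℓ R F H (W m) (p m) v x|} ≤
      L * (2 * Real.exp (-((t / (2 * L)) ^ 2 / (2 * N)))) := by
  classical
  have hL' : (0 : ℝ) < L := by exact_mod_cast hL
  set σ := Tuple.sort (fun t : Fin N => ℓ (p t v)) with hσ
  let p' : Fin N → J → G := fun i => p (σ i)
  let W' : Fin N → X → ℝ := fun i => W (σ i)
  have hmeas : ∀ m, Measurable (DD V Φ ℓ R F H (W' m) (p' m) v) := fun m =>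
    (DD_past hA hY hv hsr hR0 (fun w hw => (hF w hw).1) hH.1 (hW _).1
      (t := r * p' m v) (hA.hom _ _).ge).mono (cm_le hFl hA _) le_rfl
  have key : ∀ ρ ∈ Finset.range L, μ.real {x | t / (2 * L) ≤
      |∑ m ∈ (Finset.univ : Finset (Fin N)).filter (fun m : Fin N => (m : ℕ) % L = ρ),
        DD V Φ ℓ R F H (W' m) (p' m) v x / 2|} ≤
      2 * Real.exp (-((t / (2 * L)) ^ 2 / (2 * N))) := by
    intro ρ _
    have hcard : ((Finset.univ : Finset (Fin N)).filter (fun m : Fin N => (m : ℕ) % L = ρ)).card ≤ N :=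
      (Finset.card_filter_le _ _).trans (by simp)
    have hM : ∀ m ∈ (Finset.univ : Finset (Fin N)).filter (fun m : Fin N => (m : ℕ) % L = ρ),
        (m : ℕ) % L = ρ :=
      fun m hm => (Finset.mem_filter.1 hm).2
    have hb : ∀ m ∈ (Finset.univ : Finset (Fin N)).filter (fun m : Fin N => (m : ℕ) % L = ρ), ∀ x,
        |DD V Φ ℓ R F H (W' m) (p' m) v x / 2| ≤ 1 := by
      intro m _ x
      rw [abs_div, abs_two]
      have := DD_abs (Φ := Φ) (ℓ := ℓ) (R := R) hv (fun w hw => (hF w hw).2) hH.2.1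
        (hW (σ m)).2 (p' m) x
      linarith
    have hmm : ∀ m ∈ (Finset.univ : Finset (Fin N)).filter (fun m : Fin N => (m : ℕ) % L = ρ),
        Measurable fun x => DD V Φ ℓ R F H (W' m) (p' m) v x / 2 :=
      fun m _ => (hmeas m).div_const 2
    have hinj : Function.Injective fun m : Fin N => ((m : ℕ) : ℤ) := fun a b h => by
      have h' : ((a : ℕ) : ℤ) = ((b : ℕ) : ℤ) := h
      exact Fin.ext (by exact_mod_cast h')
    refine azuma hinj _ hmm hb ?_ (div_nonneg ht (by positivity)) hN hcard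
    refine orth_gen hFl hA hY hv hsr hR hR0 hF hH (fun m => hW (σ m)) _ _ ?_
    intro i hi j hj hij
    have hij' : (j : ℕ) < i := by exact_mod_cast hij
    exact sep_sort hmult N hij' ((hM i hi).trans (hM j hj).symm)
  have hsub : {x | t ≤ |∑ m ∈ Finset.range N,
      DD V Φ ℓ R F H (W m) (p m) v x|} ⊆
      ⋃ ρ ∈ Finset.range L, {x | t / (2 * L) ≤
      |∑ m ∈ (Finset.univ : Finset (Fin N)).filter (fun m : Fin N => (m : ℕ) % L = ρ),
        DD V Φ ℓ R F H (W' m) (p' m) v x / 2|} := by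
    intro x hx
    by_contra hcon
    simp only [Set.mem_iUnion, Set.mem_ofPred_eq, not_exists, not_le] at hcon
    have h0 : ∑ m ∈ Finset.range N, DD V Φ ℓ R F H (W m) (p m) v x =
        ∑ i : Fin N, DD V Φ ℓ R F H (W' i) (p' i) v x := by
      rw [Finset.sum_range]
      exact (Equiv.sum_comp σ fun i : Fin N => DD V Φ ℓ R F H (W i) (p i) v x).symm
    have h1 : ∑ m ∈ Finset.range N, DD V Φ ℓ R F H (W m) (p m) v x =
        2 * ∑ ρ ∈ Finset.range L,
          ∑ m ∈ (Finset.univ : Finset (Fin N)).filter (fun m : Fin N => (m : ℕ) % L = ρ),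
          DD V Φ ℓ R F H (W' m) (p' m) v x / 2 := by
      rw [h0, Finset.sum_fiberwise_of_maps_to (s := (Finset.univ : Finset (Fin N)))
        (t := Finset.range L)
        (g := fun m : Fin N => (m : ℕ) % L) (fun m _ => Finset.mem_range.2 (Nat.mod_lt _ hL)),
        Finset.mul_sum]
      refine Finset.sum_congr rfl fun m _ => ?_
      ring
    have h2 : |∑ m ∈ Finset.range N, DD V Φ ℓ R F H (W m) (p m) v x| < t := by
      rw [h1, abs_mul, abs_two]
      have h3 : |∑ ρ ∈ Finset.range L,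
          ∑ m ∈ (Finset.univ : Finset (Fin N)).filter (fun m : Fin N => (m : ℕ) % L = ρ),
          DD V Φ ℓ R F H (W' m) (p' m) v x / 2| < L * (t / (2 * L)) := by
        refine (Finset.abs_sum_le_sum_abs _ _).trans_lt ?_
        refine (Finset.sum_lt_sum_of_nonempty ⟨0, Finset.mem_range.2 hL⟩
          fun ρ hρ => hcon ρ hρ).trans_le ?_
        rw [Finset.sum_const, Finset.card_range, nsmul_eq_mul]
      calc 2 * _ < 2 * (L * (t / (2 * L))) := by linarith
        _ = t := by field_simp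
    exact absurd hx (not_le.2 h2)
  refine (measureReal_mono hsub (measure_ne_top _ _)).trans
    ((measureReal_biUnion_finset_le _ _).trans ?_)
  refine (Finset.sum_le_sum key).trans ?_
  rw [Finset.sum_const, Finset.card_range, nsmul_eq_mul]

end Pool.Agent.Q96.KP
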