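import Pool.Agent.Q96.KP.Zero
import Pool.Agent.TH784.KE.Multi

/-!
# Complex valued functions: convergence to zero, arbitrary positions
-/

set_option autoImplicit false
set_option linter.unusedSectionVars false

open MeasureTheory Filter Topology
open scoped ENNReal

noncomputable section

namespace Pool.Agent.Q96.KP

open Pool.Agent.TH784.KE
open Pool.Agent.W761.Box (bx bxc BM Good1 good1 prod_update bxc_add bxc_sub bxc_mul bxc_norm
  bx_mono bx_mul bx_const_le int_lim_le')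

section cz

variable {X : Type*} [MeasurableSpace X] {J : Type*} [Fintype J] [DecidableEq J] {k : ℕ}

theorem Cz_closed' {μ : Measure X} [IsProbabilityMeasure μ] {g : J → (Fin k → ℕ) → X → X}
    (hg : ∀ j m, MeasurePreserving (g j m) μ μ)
    {F : J → X → ℂ} (hF : ∀ l, BM (F l)) {j : J} (hgood : Good1 μ (g j)) {f : X → ℂ} (hf : BM f)
    (h : ∀ ε : ℝ, 0 < ε → ∃ f' : X → ℂ, BM f' ∧ ∫ x, ‖f x - f' x‖ ∂μ ≤ ε ∧
      Cz μ g (Function.update F j f')) :
    Cz μ g (Function.update F j f) := by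
  obtain ⟨hfm, Cf, hCf⟩ := hf
  choose hFm CF hCF using hF
  set D : ℝ := ∏ l ∈ Finset.univ.erase j, (|CF l| + 1) with hD
  have hD0 : 0 < D := Finset.prod_pos fun l _ => by positivity
  have hDb : ∀ (m : Fin k → ℕ) (x : X),
      ‖∏ l ∈ Finset.univ.erase j, F l (g l m x)‖ ≤ D := by
    intro m x
    rw [norm_prod]
    apply Finset.prod_le_prod (fun l _ => norm_nonneg _)
    intro l _
    exact ((hCF l _).trans (le_abs_self _)).trans (by linarith)
  set G := Function.update F j f with hG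
  let Av : (J → X → ℂ) → (Fin k → ℕ) → X → ℂ :=
    fun E N x => bxc k N (fun m => ∏ l, E l (g l m x))
  have hbad : ∀ δ : ℝ, 0 < δ → ∀ᵐ x ∂μ, ∀ᶠ N in atTop, ‖Av G N x‖ ≤ δ := by
    intro δ hδ
    rw [ae_iff, ← nonpos_iff_eq_zero]
    apply ENNReal.le_of_forall_pos_le_add
    intro ε hε _
    rw [zero_add]
    have hε' : (0 : ℝ) < ε := by exact_mod_cast hε
    obtain ⟨f', ⟨hgm, Cg, hCg⟩, hfg, hcv⟩ := h (ε * (δ / (4 * D))) (by positivity)
    let K : X → ℝ := fun x => ‖f x - f' x‖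
    have hKm : Measurable K := (hfm.sub hgm).norm
    have hKb : ∀ x, |K x| ≤ |Cf + Cg| := fun x => by
      show |‖f x - f' x‖| ≤ _
      rw [abs_of_nonneg (norm_nonneg _)]
      exact ((norm_sub_le _ _).trans (add_le_add (hCf x) (hCg x))).trans (le_abs_self _)
    have hB := hgood K hKm ⟨_, hKb⟩
    let E : X → ℝ := fun x => limUnder atTop (fun N => bx k N fun m => K (g j m x))
    have hE : ∀ᵐ x ∂μ, Tendsto (fun N => bx k N fun m => K (g j m x)) atTop (𝓝 (E x)) := by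
      filter_upwards [hB] with x hx
      exact tendsto_nhds_limUnder hx
    obtain ⟨hE0, hEi, hEint⟩ := int_lim_le' (hg j) hKm (abs_nonneg _) hKb
      (fun x => norm_nonneg _) hE
    have hmark := mul_meas_ge_le_integral_of_nonneg hE0 hEi (δ / (4 * D))
    have hmark' : μ.real {x | δ / (4 * D) ≤ E x} ≤ ε := by
      have h1 : δ / (4 * D) * μ.real {x | δ / (4 * D) ≤ E x} ≤ δ / (4 * D) * ε := by
        refine hmark.trans ((hEint.trans hfg).trans ?_)
        rw [mul_comm]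
      exact le_of_mul_le_mul_left h1 (by positivity)
    have hsub : ∀ᵐ x ∂μ, x ∈ {x | ¬ ∀ᶠ N in atTop, ‖Av G N x‖ ≤ δ} →
        x ∈ {x | δ / (4 * D) ≤ E x} := by
      filter_upwards [hE, hcv] with x hx1 hx2 hx3
      show δ / (4 * D) ≤ E x
      by_contra hcon
      rw [not_le] at hcon
      apply hx3
      have h2 := (tendsto_order.mp hx1).2 _ hcon
      have hx2' := hx2.norm
      rw [norm_zero] at hx2'
      have h3 := (tendsto_order.mp hx2').2 (δ / 4) (by positivity)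
      filter_upwards [h2, h3] with N hN1 hN2
      have hclose : ‖Av G N x - Av (Function.update F j f') N x‖ ≤ δ / 4 := by
        show ‖bxc k N (fun m => ∏ l, G l (g l m x)) -
          bxc k N (fun m => ∏ l, (Function.update F j f') l (g l m x))‖ ≤ δ / 4
        rw [← bxc_sub]
        refine (bxc_norm _ _ _).trans ?_
        have h3 : ∀ m, ‖∏ l, G l (g l m x) - ∏ l, (Function.update F j f') l (g l m x)‖ ≤
            D * K (g j m x) := by
          intro m
          rw [hG, prod_update, prod_update, ← sub_mul, norm_mul, mul_comm]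
          exact mul_le_mul_of_nonneg_right (hDb _ x) (norm_nonneg _)
        refine (bx_mono h3).trans ?_
        rw [bx_mul]
        calc D * bx k N (fun m => K (g j m x)) ≤ D * (δ / (4 * D)) :=
              mul_le_mul_of_nonneg_left hN1.le hD0.le
          _ = δ / 4 := by field_simp
      have e1 : Av G N x = (Av G N x - Av (Function.update F j f') N x) +
          Av (Function.update F j f') N x := by ring
      rw [e1]
      have b1 := norm_add_le (Av G N x - Av (Function.update F j f') N x)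
        (Av (Function.update F j f') N x)
      have b2 : ‖Av (Function.update F j f') N x‖ < δ / 4 := hN2
      linarith
    have h10 : μ {x | ¬ ∀ᶠ N in atTop, ‖Av G N x‖ ≤ δ} ≤ μ {x | δ / (4 * D) ≤ E x} :=
      measure_mono_ae hsub
    refine h10.trans ?_
    have h9 : μ {x | δ / (4 * D) ≤ E x} = ENNReal.ofReal (μ.real {x | δ / (4 * D) ≤ E x}) := by
      rw [measureReal_def, ENNReal.ofReal_toReal (measure_ne_top _ _)]
    rw [h9]
    calc ENNReal.ofReal (μ.real {x | δ / (4 * D) ≤ E x}) ≤ ENNReal.ofReal (ε : ℝ) :=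
          ENNReal.ofReal_le_ofReal hmark'
      _ = ε := ENNReal.ofReal_coe_nnreal
  have hall := ae_all_iff.mpr fun i : ℕ => hbad (1 / ((i : ℝ) + 1)) (by positivity)
  filter_upwards [hall] with x hx
  rw [Metric.tendsto_nhds]
  intro ε hε
  obtain ⟨i, hi⟩ := exists_nat_one_div_lt hε
  filter_upwards [hx i] with N hN
  rw [dist_eq_norm, sub_zero]
  exact hN.trans_lt hi

theorem Cz_unif {μ : Measure X} [IsProbabilityMeasure μ] {g : J → (Fin k → ℕ) → X → X}
    (hg : ∀ j m, MeasurePreserving (g j m) μ μ)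
    {F : J → X → ℂ} (hF : ∀ l, BM (F l)) {j : J} {f : X → ℂ}
    (h : ∀ ε : ℝ, 0 < ε → ∃ f' : X → ℂ, (∀ᵐ x ∂μ, ‖f x - f' x‖ ≤ ε) ∧
      Cz μ g (Function.update F j f')) :
    Cz μ g (Function.update F j f) := by
  choose hFm CF hCF using hF
  set D : ℝ := ∏ l ∈ Finset.univ.erase j, (|CF l| + 1) with hD
  have hD0 : 0 < D := Finset.prod_pos fun l _ => by positivity
  have hDb : ∀ (m : Fin k → ℕ) (x : X),
      ‖∏ l ∈ Finset.univ.erase j, F l (g l m x)‖ ≤ D := by
    intro m x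
    rw [norm_prod]
    apply Finset.prod_le_prod (fun l _ => norm_nonneg _)
    intro l _
    exact ((hCF l _).trans (le_abs_self _)).trans (by linarith)
  set G := Function.update F j f with hG
  let Av : (J → X → ℂ) → (Fin k → ℕ) → X → ℂ :=
    fun E N x => bxc k N (fun m => ∏ l, E l (g l m x))
  have hbad : ∀ δ : ℝ, 0 < δ → ∀ᵐ x ∂μ, ∀ᶠ N in atTop, ‖Av G N x‖ ≤ δ := by
    intro δ hδ
    obtain ⟨f', hfg, hcv⟩ := h (δ / (4 * D)) (by positivity)
    have hfg' : ∀ᵐ x ∂μ, ∀ m : Fin k → ℕ, ‖f (g j m x) - f' (g j m x)‖ ≤ δ / (4 * D) :=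
      ae_all_iff.2 fun m => (hg j m).quasiMeasurePreserving.ae hfg
    filter_upwards [hfg', hcv] with x hx1 hx2
    have hx2' := hx2.norm
    rw [norm_zero] at hx2'
    have h3 := (tendsto_order.mp hx2').2 (δ / 4) (by positivity)
    filter_upwards [h3] with N hN2
    have hclose : ‖Av G N x - Av (Function.update F j f') N x‖ ≤ δ / 4 := by
      show ‖bxc k N (fun m => ∏ l, G l (g l m x)) -
        bxc k N (fun m => ∏ l, (Function.update F j f') l (g l m x))‖ ≤ δ / 4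
      rw [← bxc_sub]
      refine (bxc_norm _ _ _).trans ?_
      have h3 : ∀ m, ‖∏ l, G l (g l m x) - ∏ l, (Function.update F j f') l (g l m x)‖ ≤
          δ / 4 := by
        intro m
        rw [hG, prod_update, prod_update, ← sub_mul, norm_mul]
        calc ‖f (g j m x) - f' (g j m x)‖ * ‖∏ l ∈ Finset.univ.erase j, F l (g l m x)‖ ≤
            (δ / (4 * D)) * D := mul_le_mul (hx1 m) (hDb _ x) (norm_nonneg _) (by positivity)
          _ = δ / 4 := by field_simp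
      exact (bx_mono h3).trans (bx_const_le (by positivity))
    have e1 : Av G N x = (Av G N x - Av (Function.update F j f') N x) +
        Av (Function.update F j f') N x := by ring
    rw [e1]
    have b1 := norm_add_le (Av G N x - Av (Function.update F j f') N x)
      (Av (Function.update F j f') N x)
    have b2 : ‖Av (Function.update F j f') N x‖ < δ / 4 := hN2
    linarith
  have hall := ae_all_iff.mpr fun i : ℕ => hbad (1 / ((i : ℝ) + 1)) (by positivity)
  filter_upwards [hall] with x hx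
  rw [Metric.tendsto_nhds]
  intro ε hε
  obtain ⟨i, hi⟩ := exists_nat_one_div_lt hε
  filter_upwards [hx i] with N hN
  rw [dist_eq_norm, sub_zero]
  exact hN.trans_lt hi

end cz

variable {X : Type*} {mA mY mX : MeasurableSpace X} {μ : Measure X} [IsProbabilityMeasure μ]
variable {G : Type*} [Group G]
variable {Φ : G →* Equiv.Perm X} {ℓ : G → ℝ}

theorem exists_CE_small {m : MeasurableSpace X} (hm : m ≤ mX) {f : X → ℝ}
    (hf : Measurable[mX] f)
    (hb : ∀ x, |f x| ≤ 1) {ε : ℝ} (hε : 0 < ε) (h : ∀ᵐ x ∂μ, |(μ[f | m]) x| ≤ ε) :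
    ∃ g : X → ℝ, CE μ m f g ∧ ∀ x, |g x| ≤ ε := by
  obtain ⟨g₀, hg₀, hge⟩ := exists_CE (μ := μ) hm hf hb
  set c : ℝ := min ε 1 with hc
  have hc0 : 0 < c := lt_min hε one_pos
  set g : X → ℝ := fun x => max (-c) (min c (g₀ x)) with hg
  have hgc : ∀ x, |g x| ≤ c := fun x =>
    abs_le.2 ⟨le_max_left _ _, max_le (by linarith) (min_le_left _ _)⟩
  have hae : g =ᵐ[μ] g₀ := by
    filter_upwards [h, hge] with x hx1 hx2
    have h1 : |g₀ x| ≤ c := le_min (by rw [hx2]; exact hx1) (hg₀.2.1 x)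
    have h2 := abs_le.1 h1
    show max (-c) (min c (g₀ x)) = g₀ x
    rw [min_eq_right h2.2, max_eq_right h2.1]
  refine ⟨g, ⟨measurable_const.max (measurable_const.min hg₀.1), fun x =>
    (hgc x).trans (min_le_right _ _), fun h hh hC => ?_⟩, fun x => (hgc x).trans (min_le_left _ _)⟩
  rw [← hg₀.2.2 h hh hC]
  apply integral_congr_ae
  filter_upwards [hae] with x hx
  rw [hx]

/-- the conditional expectations on the remote past tend to zero uniformly -/
def Nice (μ : Measure X) (mA : MeasurableSpace X) (Φ : G →* Equiv.Perm X) (f : X → ℝ) : Prop :=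
  ∀ ε : ℝ, 0 < ε → ∃ s : G, ∀ᵐ x ∂μ, |(μ[f | cm mA Φ s]) x| ≤ ε

theorem tower_small (hFl : Flow μ Φ) (hA : Filt mX mA Φ ℓ) {f : X → ℝ} {s s' : G}
    (hs : ℓ s' ≤ ℓ s) {ε : ℝ} (h : ∀ᵐ x ∂μ, |(μ[f | cm mA Φ s]) x| ≤ ε) :
    ∀ᵐ x ∂μ, |(μ[f | cm mA Φ s']) x| ≤ ε := by
  have h2 := condExp_condExp_of_le (μ := μ) (f := f) (cm_mono hA hs) (cm_le hFl hA s)
  have h3 := ae_bdd_abs_condExp_of_ae_bdd_abs (m := cm mA Φ s') h
  filter_upwards [h2, h3] with x hx1 hx2
  rw [← hx1]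
  exact hx2

variable {J : Type*} [DecidableEq J] [Fintype J] {k : ℕ}

theorem zero_real' (hK : KExt μ mA mY Φ ℓ) {s₀ : G} (hs₀ : 0 < ℓ s₀)
    {S : Finset J} {q : (Fin k → ℕ) → J → G} {D : J → Finset (Fin k)} {U : Finset (Fin k)}
    (hP : Pos ℓ S q D U) (good : J → Prop)
    (hgood : ∀ v ∈ S, good v → Good1 μ fun n => (Φ (q n v) : X → X))
    {f : J → X → ℝ} (hf1 : ∀ v x, |f v x| ≤ 1)
    (hfS : ∀ v ∈ S, (∃ r : G, Measurable[cm mA Φ r] (f v)) ∧ Van μ mY (f v) ∧
      (¬ good v → Nice μ mA Φ (f v)))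
    (hfN : ∀ v ∉ S, Measurable[mY] (f v))
    (hW : ∀ w ∉ S, (∀ n n' : Fin k → ℕ, (∀ l ∈ U, n l = n' l) → q n w = q n' w) ∨
      ∃ c, ∀ x, f w x = c) :
    ∀ᵐ x ∂μ, Tendsto (fun N => bx k N fun n => ∏ v, f v (Φ (q n v) x)) atTop (𝓝 0) := by
  classical
  have hr' : ∀ v : J, ∃ r : G, v ∈ S → Measurable[cm mA Φ r] (f v) := by
    intro v
    by_cases hv : v ∈ S
    · obtain ⟨⟨r, hr⟩, _⟩ := hfS v hv
      exact ⟨r, fun _ => hr⟩
    · exact ⟨1, fun h => absurd h hv⟩
  choose r₀ hr₀ using hr'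
  obtain ⟨r, hr⟩ := exists_upper hK.filt hs₀ r₀
  have hFm : ∀ v ∈ S, Measurable[cm mA Φ r] (f v) := fun v hv =>
    (hr₀ v hv).mono (cm_mono hK.filt (hr v)) le_rfl
  have hFmX : ∀ v ∈ S, Measurable (f v) := fun v hv =>
    (hFm v hv).mono (cm_le hK.fl hK.filt r) le_rfl
  refine box_zero' hK.fl hK.filt hK.base hP good hgood (fun w hw n n' h x => ?_) hFm hf1 hfN
    fun ε hε => ?_
  · rcases hW w hw with h1 | ⟨c, hc⟩
    · rw [h1 n n' h]
    · rw [hc, hc]
  have hs' : ∀ v : J, ∃ s₁ : G, v ∈ S → ∀ s : G, ℓ s ≤ ℓ s₁ →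
      (good v → ∫ x, |(μ[f v | cm mA Φ s]) x| ∂μ ≤ ε) ∧
      (¬ good v → ∀ᵐ x ∂μ, |(μ[f v | cm mA Φ s]) x| ≤ ε) := by
    intro v
    by_cases hv : v ∈ S
    · by_cases hg : good v
      · obtain ⟨s₁, hs₁⟩ := small_past' hK.fl hK.filt hs₀ hK.tail (hFmX v hv) (hf1 v)
          (hfS v hv).2.1 hε
        exact ⟨s₁, fun _ s hs => ⟨fun _ => hs₁ s hs, fun h => absurd hg h⟩⟩
      · obtain ⟨s₁, hs₁⟩ := (hfS v hv).2.2 hg ε hε
        exact ⟨s₁, fun _ s hs => ⟨fun h => absurd h hg, fun _ =>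
          tower_small hK.fl hK.filt hs hs₁⟩⟩
    · exact ⟨1, fun h => absurd h hv⟩
  choose s₁ hs₁ using hs'
  obtain ⟨s₂, hs₂⟩ := exists_lower hK.filt hs₀ s₁
  obtain ⟨s, hs⟩ := exists_lower (J := Bool) hK.filt hs₀ (fun b => if b then s₂ else r)
  have hss₂ : ℓ s ≤ ℓ s₂ := hs true
  have hsr : ℓ s ≤ ℓ r := hs false
  have hG' : ∀ v : J, ∃ g : X → ℝ, v ∈ S → (CE μ (cm mA Φ s) (f v) g ∧
      (good v → ∫ x, |g x| ∂μ ≤ ε) ∧ (¬ good v → ∀ x, |g x| ≤ ε)) := by
    intro v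
    by_cases hv : v ∈ S
    · by_cases hg : good v
      · obtain ⟨g, hg1, hg2⟩ := exists_CE (cm_le hK.fl hK.filt s) (hFmX v hv) (hf1 v) (μ := μ)
        refine ⟨g, fun _ => ⟨hg1, fun _ => ?_, fun h => absurd hg h⟩⟩
        have e : ∫ x, |g x| ∂μ = ∫ x, |(μ[f v | cm mA Φ s]) x| ∂μ := by
          apply integral_congr_ae
          filter_upwards [hg2] with x hx
          rw [hx]
        rw [e]
        exact (hs₁ v hv s (hss₂.trans (hs₂ v))).1 hg
      · obtain ⟨g, hg1, hg2⟩ := exists_CE_small (cm_le hK.fl hK.filt s) (hFmX v hv) (hf1 v) hε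
          ((hs₁ v hv s (hss₂.trans (hs₂ v))).2 hg)
        exact ⟨g, fun _ => ⟨hg1, fun h => absurd h hg, fun _ => hg2⟩⟩
    · exact ⟨0, fun h => absurd h hv⟩
  choose H hH using hG'
  exact ⟨s, hsr, H, fun v hv => (hH v hv).1, fun v hv => (hH v hv).2⟩

/-- uniform regularity -/
def Reg {E : Type*} [NormedAddCommGroup E] [NormedSpace ℝ E] [CompleteSpace E] (μ : Measure X)
    (mA : MeasurableSpace X) (Φ : G →* Equiv.Perm X) (f : X → E) : Prop :=
  ∀ ε : ℝ, 0 < ε → ∃ r s : G, ∀ᵐ x ∂μ,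
    ‖f x - (μ[f | cm mA Φ r]) x‖ ≤ ε ∧ ‖(μ[f | cm mA Φ s]) x‖ ≤ ε

theorem Reg.clm {f : X → ℂ} (hf : Integrable f μ) (h : Reg μ mA Φ f) (T : ℂ →L[ℝ] ℝ)
    (hT : ∀ z, |T z| ≤ ‖z‖) : Reg μ mA Φ fun x => T (f x) := by
  intro ε hε
  obtain ⟨r, s, hrs⟩ := h ε hε
  refine ⟨r, s, ?_⟩
  have h1 := ContinuousLinearMap.comp_condExp_comm (m := cm mA Φ r) hf T
  have h2 := ContinuousLinearMap.comp_condExp_comm (m := cm mA Φ s) hf T
  filter_upwards [hrs, h1, h2] with x hx h1x h2x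
  have e : (fun x => T (f x)) = T ∘ f := rfl
  rw [e, ← h1x, ← h2x]
  refine ⟨?_, ?_⟩
  · show ‖T (f x) - T ((μ[f | cm mA Φ r]) x)‖ ≤ ε
    rw [← map_sub]
    exact (hT _).trans hx.1
  · exact (hT _).trans hx.2

theorem Reg.div {f : X → ℝ} (h : Reg μ mA Φ f) {C : ℝ} (hC : 0 < C) :
    Reg μ mA Φ fun x => f x / C := by
  intro ε hε
  obtain ⟨r, s, hrs⟩ := h (ε * C) (by positivity)
  refine ⟨r, s, ?_⟩
  have e : (fun x => f x / C) = (C⁻¹ : ℝ) • f := by
    funext x
    rw [Pi.smul_apply, smul_eq_mul]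
    ring
  have h1 := condExp_smul (μ := μ) (C⁻¹ : ℝ) f (cm mA Φ r)
  have h2 := condExp_smul (μ := μ) (C⁻¹ : ℝ) f (cm mA Φ s)
  filter_upwards [hrs, h1, h2] with x hx h1x h2x
  rw [e, h1x, h2x]
  simp only [Pi.smul_apply, smul_eq_mul]
  refine ⟨?_, ?_⟩
  · rw [div_eq_inv_mul, ← mul_sub, norm_mul, norm_inv, Real.norm_of_nonneg hC.le,
      inv_mul_le_iff₀ hC, mul_comm]
    exact hx.1
  · rw [norm_mul, norm_inv, Real.norm_of_nonneg hC.le, inv_mul_le_iff₀ hC, mul_comm]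
    exact hx.2

end Pool.Agent.Q96.KP
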