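import Pool.Agent.Q96.KP.Line

/-!
# Polynomials take values in short intervals boundedly often
-/

set_option autoImplicit false

open Polynomial

noncomputable section

namespace Pool.Agent.Q96.KP

theorem mult_poly {d : ℕ} (hd : 1 ≤ d) {c₀ R : ℝ} (hc₀ : 0 < c₀) (hR : 0 < R) {s : ℕ}
    (hs : 0 < s) (hs' : (d + 1) * R < c₀ * s) (P : ℝ[X]) (hP : P.natDegree ≤ d)
    (hc : c₀ ≤ |P.coeff d|) (a : ℝ) (M : ℕ) :
    ((Finset.range M).filter fun t : ℕ => a ≤ P.eval (t : ℝ) ∧ P.eval (t : ℝ) < a + R).card ≤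
      s * d := by
  classical
  by_contra hcon
  rw [not_le] at hcon
  set T := (Finset.range M).filter fun t : ℕ => a ≤ P.eval (t : ℝ) ∧ P.eval (t : ℝ) < a + R with hT
  obtain ⟨ρ, hρ, hcard⟩ := Finset.exists_lt_card_fiber_of_mul_lt_card_of_maps_to
    (s := T) (t := Finset.range s) (f := fun t => t % s) (n := d)
    (fun t _ => Finset.mem_range.2 (Nat.mod_lt _ hs)) (by rw [Finset.card_range]; exact hcon)
  obtain ⟨T', hT'sub, hT'card⟩ := Finset.exists_subset_card_eq (show d + 1 ≤ _ from hcard)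
  have hmem : ∀ t ∈ T', (a ≤ P.eval (t : ℝ) ∧ P.eval (t : ℝ) < a + R) ∧ t % s = ρ := by
    intro t ht
    have h1 := Finset.mem_filter.1 (hT'sub ht)
    exact ⟨(Finset.mem_filter.1 h1.1).2, h1.2⟩
  set Q : ℝ[X] := P - C a with hQ
  have hQdeg : Q.natDegree ≤ d := by
    refine (natDegree_sub_le _ _).trans ?_
    rw [natDegree_C]
    exact max_le hP (Nat.zero_le _)
  have hQc : Q.coeff d = P.coeff d := by
    rw [hQ, coeff_sub, coeff_C_of_ne_zero (by omega), sub_zero]
  have hinj : Set.InjOn (fun t : ℕ => (t : ℝ)) (T' : Set ℕ) := fun x _ y _ h => by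
    have h' : (x : ℝ) = (y : ℝ) := h
    exact_mod_cast h'
  have hdeg : Q.degree < T'.card := by
    rw [hT'card]
    refine lt_of_le_of_lt degree_le_natDegree ?_
    exact_mod_cast Nat.lt_succ_of_le hQdeg
  have hsum := Lagrange.coeff_eq_sum hinj hdeg
  rw [hT'card, Nat.add_sub_cancel, hQc] at hsum
  have hs1 : (1 : ℝ) ≤ s := by exact_mod_cast hs
  have hterm : ∀ i ∈ T', |Q.eval (i : ℝ) / ∏ j ∈ T'.erase i, ((i : ℝ) - (j : ℝ))| ≤ R / s := by
    intro i hi
    obtain ⟨⟨h1, h2⟩, h3⟩ := hmem i hi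
    rw [abs_div]
    have hnum : |Q.eval (i : ℝ)| ≤ R := by
      rw [hQ, eval_sub, eval_C, abs_of_nonneg (by linarith)]
      linarith
    have hden : (s : ℝ) ≤ |∏ j ∈ T'.erase i, ((i : ℝ) - (j : ℝ))| := by
      rw [Finset.abs_prod]
      have h4 : ∏ _j ∈ T'.erase i, (s : ℝ) ≤ ∏ j ∈ T'.erase i, |(i : ℝ) - (j : ℝ)| := by
        refine Finset.prod_le_prod (fun _ _ => by linarith) fun j hj => ?_
        have hji : j ≠ i := Finset.ne_of_mem_erase hj
        have h5 := (hmem j (Finset.mem_of_mem_erase hj)).2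
        have hmod : i % s = j % s := h3.trans h5.symm
        rcases lt_or_gt_of_ne hji with h | h
        · have h6 : s ∣ i - j := (Nat.modEq_iff_dvd' h.le).1 hmod.symm
          have h7 := Nat.le_of_dvd (Nat.sub_pos_of_lt h) h6
          have h8 : ((i - j : ℕ) : ℝ) = (i : ℝ) - j := Nat.cast_sub h.le
          refine le_trans ?_ (le_abs_self _)
          rw [← h8]
          exact_mod_cast h7
        · have h6 : s ∣ j - i := (Nat.modEq_iff_dvd' h.le).1 hmod
          have h7 := Nat.le_of_dvd (Nat.sub_pos_of_lt h) h6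
          have h8 : ((j - i : ℕ) : ℝ) = (j : ℝ) - i := Nat.cast_sub h.le
          rw [abs_sub_comm]
          refine le_trans ?_ (le_abs_self _)
          rw [← h8]
          exact_mod_cast h7
      refine le_trans ?_ h4
      rw [Finset.prod_const, Finset.card_erase_of_mem hi, hT'card, Nat.add_sub_cancel]
      calc (s : ℝ) = (s : ℝ) ^ 1 := (pow_one _).symm
        _ ≤ (s : ℝ) ^ d := pow_le_pow_right₀ hs1 hd
    exact div_le_div₀ hR.le hnum (by linarith) hden
  have habs : |P.coeff d| ≤ (d + 1) * (R / s) := by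
    rw [hsum]
    refine (Finset.abs_sum_le_sum_abs _ _).trans ((Finset.sum_le_sum hterm).trans ?_)
    rw [Finset.sum_const, hT'card, nsmul_eq_mul]
    push_cast
    exact le_rfl
  have h9 : (d + 1) * (R / s) < c₀ := by
    rw [← mul_div_assoc, div_lt_iff₀ (by linarith)]
    exact hs'
  linarith

/-- uniform multiplicity bound -/
theorem mult_unif {d : ℕ} (hd : 1 ≤ d) {c₀ R : ℝ} (hc₀ : 0 < c₀) (hR : 0 < R) :
    ∃ C : ℕ, 0 < C ∧ ∀ P : ℝ[X], P.natDegree ≤ d → c₀ ≤ |P.coeff d| →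
      Mult C R fun t => P.eval (t : ℝ) := by
  obtain ⟨s, hs⟩ := exists_nat_gt ((d + 1) * R / c₀)
  have hs0 : 0 < s := by
    have h1 : (0 : ℝ) < (d + 1) * R / c₀ := by positivity
    exact_mod_cast h1.trans hs
  refine ⟨s * d, Nat.mul_pos hs0 hd, fun P hP hc a M => ?_⟩
  refine le_trans (le_of_eq ?_) (mult_poly hd hc₀ hR hs0 ?_ P hP hc a M)
  · congr
  · rw [div_lt_iff₀ hc₀] at hs
    linarith

end Pool.Agent.Q96.KP
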