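import Pool.Agent.Q96.KP.Box

/-!
# Convergence to zero of box averages, arbitrary positions
-/

set_option autoImplicit false
set_option linter.unusedSectionVars false

open MeasureTheory Filter Topology

noncomputable section

namespace Pool.Agent.Q96.KP

open Pool.Agent.TH784.KE
open Pool.Agent.W761.Box (bx bx_add bx_mul bx_sum bx_mono bx_abs bx_const_le bx_nonneg good1
  Good1 int_lim_le')
open Pool.Agent.TH784.AA (bxs mem_bxs vol vol_pos vol_nonneg card_bxs sum_fiber bxs_mono)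

variable {X : Type*} {mA mY mX : MeasurableSpace X} {μ : Measure X} [IsProbabilityMeasure μ]
variable {G : Type*} [Group G]
variable {Φ : G →* Equiv.Perm X} {ℓ : G → ℝ}
variable {J : Type*} [DecidableEq J] [Fintype J] {k : ℕ}

/-- The combinatorial assumptions on the positions. -/
structure Pos (ℓ : G → ℝ) (S : Finset J) (q : (Fin k → ℕ) → J → G) (D : J → Finset (Fin k))
    (U : Finset (Fin k)) : Prop where
  ne : U.Nonempty
  dep : ∀ v ∈ S, ∀ n n' : Fin k → ℕ, (∀ l ∈ D v, n l = n' l) → q n v = q n' v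
  sub : ∀ v ∈ S, D v ⊆ U
  cov : ∀ l ∈ U, ∃ v ∈ S, l ∈ D v
  lines : ∀ R : ℝ, 0 < R → ∀ δ : ℝ, 0 < δ → ∃ C : ℕ, 0 < C ∧ ∀ᶠ N in atTop, ∀ l ∈ U,
    bx k N (fun n => badl ℓ C R S D q l n) ≤ δ
  close : ∀ R : ℝ, 0 < R → ∀ v ∈ S, ∀ w ∈ S, v ≠ w → Tendsto (fun N => bx k N
    (open Classical in fun n => if |ℓ (q n v) - ℓ (q n w)| < R then (1 : ℝ) else 0))
    atTop (𝓝 0)

/-- **Convergence to zero.** -/
theorem box_zero' (hFl : Flow μ Φ) (hA : Filt mX mA Φ ℓ) (hY : Base mY mA Φ)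
    {S : Finset J} {q : (Fin k → ℕ) → J → G} {D : J → Finset (Fin k)} {U : Finset (Fin k)}
    (hP : Pos ℓ S q D U) (good : J → Prop)
    (hgood : ∀ v ∈ S, good v → Good1 μ fun n => (Φ (q n v) : X → X))
    {F : J → X → ℝ} (hW : ∀ w ∉ S, ∀ n n' : Fin k → ℕ, (∀ l ∈ U, n l = n' l) →
      ∀ x, F w (Φ (q n w) x) = F w (Φ (q n' w) x)) {r : G}
    (hF : ∀ v ∈ S, Measurable[cm mA Φ r] (F v)) (hF1 : ∀ v x, |F v x| ≤ 1)
    (hFY : ∀ v ∉ S, Measurable[mY] (F v))
    (hsm : ∀ ε : ℝ, 0 < ε → ∃ s : G, ℓ s ≤ ℓ r ∧ ∃ H : J → X → ℝ,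
      (∀ v ∈ S, CE μ (cm mA Φ s) (F v) (H v)) ∧
      ∀ v ∈ S, (good v → ∫ x, |H v x| ∂μ ≤ ε) ∧ (¬ good v → ∀ x, |H v x| ≤ ε)) :
    ∀ᵐ x ∂μ, Tendsto (fun N => bx k N fun n => ∏ v, F v (Φ (q n v) x)) atTop (𝓝 0) := by
  classical
  set S₁ := S.filter good with hS₁
  set S₂ := S.filter (fun v => ¬ good v) with hS₂
  have hbad : ∀ δ : ℝ, 0 < δ → ∀ᵐ x ∂μ, ∀ᶠ N : Fin k → ℕ in atTop,
      |bx k N fun n => ∏ v, F v (Φ (q n v) x)| ≤ δ := by
    intro δ hδ
    rw [ae_iff, ← nonpos_iff_eq_zero]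
    apply ENNReal.le_of_forall_pos_le_add
    intro ε hε _
    rw [zero_add]
    have hε' : (0 : ℝ) < ε := by exact_mod_cast hε
    obtain ⟨s, hsr, H, hH, hHs⟩ := hsm (min (ε * (δ / 8) / (S.card + 1)) ((δ / 8) / (S.card + 1)))
      (by positivity)
    set R : ℝ := max (ℓ r - ℓ s) 1 with hRdef
    have hR : ℓ r - ℓ s ≤ R := le_max_left _ _
    have hR0 : 0 < R := lt_of_lt_of_le one_pos (le_max_right _ _)
    have hHm : ∀ v ∈ S, Measurable (H v) := fun v hv => (hH v hv).1.mono (cm_le hFl hA s) le_rfl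
    let E : J → X → ℝ := fun v x => limUnder atTop
      (fun N => bx k N fun n => |H v (Φ (q n v) x)|)
    have hmem₁ : ∀ v ∈ S₁, v ∈ S ∧ good v := fun v hv => Finset.mem_filter.1 hv
    have hmem₂ : ∀ v ∈ S₂, v ∈ S ∧ ¬ good v := fun v hv => Finset.mem_filter.1 hv
    have hE : ∀ v ∈ S₁, ∀ᵐ x ∂μ, Tendsto (fun N => bx k N fun n => |H v (Φ (q n v) x)|)
        atTop (𝓝 (E v x)) := by
      intro v hv
      have h4 := hgood v (hmem₁ v hv).1 (hmem₁ v hv).2 (fun x => |H v x|)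
        (hHm v (hmem₁ v hv).1).abs ⟨1, fun x => by
          rw [abs_abs]; exact (hH v (hmem₁ v hv).1).2.1 x⟩
      filter_upwards [h4] with x hx
      exact tendsto_nhds_limUnder hx
    have hEint : ∀ v ∈ S₁, 0 ≤ᵐ[μ] E v ∧ Integrable (E v) μ ∧
        ∫ x, E v x ∂μ ≤ ∫ x, |H v x| ∂μ := by
      intro v hv
      exact int_lim_le' (fun n => hFl (q n v)) (hHm v (hmem₁ v hv).1).abs (zero_le_one (α := ℝ))
        (fun x => by rw [abs_abs]; exact (hH v (hmem₁ v hv).1).2.1 x) (fun x => abs_nonneg _)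
        (hE v hv)
    let T : X → ℝ := fun x => ∑ v ∈ S₁, E v x
    have hT0 : 0 ≤ᵐ[μ] T := by
      have : ∀ᵐ x ∂μ, ∀ v ∈ S₁, 0 ≤ E v x :=
        (ae_ball_iff S₁.countable_toSet).2 fun v hv => (hEint v hv).1
      filter_upwards [this] with x hx
      exact Finset.sum_nonneg hx
    have hTi : Integrable T μ := integrable_finsetSum _ fun v hv => (hEint v hv).2.1
    have hcard₁ : (S₁.card : ℝ) ≤ S.card := by
      exact_mod_cast Finset.card_filter_le S good
    have hcard₂ : (S₂.card : ℝ) ≤ S.card := by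
      exact_mod_cast Finset.card_filter_le S (fun v => ¬ good v)
    have hTint : ∫ x, T x ∂μ ≤ ε * (δ / 8) := by
      have : ∫ x, T x ∂μ = ∑ v ∈ S₁, ∫ x, E v x ∂μ :=
        integral_finsetSum _ fun v hv => (hEint v hv).2.1
      rw [this]
      refine (Finset.sum_le_sum fun v hv => ((hEint v hv).2.2.trans
        (((hHs v (hmem₁ v hv).1).1 (hmem₁ v hv).2).trans (min_le_left _ _)))).trans ?_
      rw [Finset.sum_const, nsmul_eq_mul, mul_div_assoc', div_le_iff₀ (by positivity)]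
      have : 0 ≤ ε * (δ / 8) := by positivity
      nlinarith
    have hmark := mul_meas_ge_le_integral_of_nonneg hT0 hTi (δ / 8)
    have hmark' : μ.real {x | δ / 8 ≤ T x} ≤ ε := by
      have h5 : δ / 8 * μ.real {x | δ / 8 ≤ T x} ≤ δ / 8 * ε := by
        refine (hmark.trans hTint).trans ?_
        rw [mul_comm]
      exact le_of_mul_le_mul_left h5 (by positivity)
    obtain ⟨C, hC, hlines⟩ := hP.lines R hR0 (δ / 8 / (U.card + 1)) (by positivity)
    have hmain := bound_ae' (η := δ / 8) hFl hA hY hP.ne hP.dep hP.sub hP.cov hW hsr hR hR0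
      hF hF1 hFY hH hC (by positivity)
    have hEall : ∀ᵐ x ∂μ, ∀ v ∈ S₁, Tendsto (fun N => bx k N fun n =>
        |H v (Φ (q n v) x)|) atTop (𝓝 (E v x)) :=
      (ae_ball_iff S₁.countable_toSet).2 fun v hv => hE v hv
    have hclose : Tendsto (fun N => ∑ v ∈ S, ∑ w ∈ S.erase v, bx k N
        (fun n => if |ℓ (q n v) - ℓ (q n w)| < R then (1 : ℝ) else 0))
        atTop (𝓝 0) := by
      have h5 : Tendsto (fun N => ∑ v ∈ S, ∑ w ∈ S.erase v, bx k N
          (fun n => if |ℓ (q n v) - ℓ (q n w)| < R then (1 : ℝ) else 0))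
          atTop (𝓝 (∑ v ∈ S, ∑ _w ∈ S.erase v, (0 : ℝ))) := by
        refine tendsto_finsetSum _ fun v hv => tendsto_finsetSum _ fun w hw => ?_
        have := hP.close R hR0 v hv w (Finset.mem_of_mem_erase hw) (Finset.ne_of_mem_erase hw).symm
        refine this.congr fun N => ?_
        congr 1
      rw [Finset.sum_eq_zero fun v _ => Finset.sum_const_zero] at h5
      exact h5
    have hsub : ∀ᵐ x ∂μ, x ∈ {x | ¬ ∀ᶠ N : Fin k → ℕ in atTop,
        |bx k N fun n => ∏ v, F v (Φ (q n v) x)| ≤ δ} → x ∈ {x | δ / 8 ≤ T x} := by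
      filter_upwards [hmain, hEall] with x hx1 hx2 hx3
      show δ / 8 ≤ T x
      by_contra hcon
      rw [not_le] at hcon
      apply hx3
      have h6 : Tendsto (fun N => ∑ v ∈ S₁, bx k N fun n => |H v (Φ (q n v) x)|)
          atTop (𝓝 (T x)) := tendsto_finsetSum _ fun v hv => hx2 v hv
      have h7 := (tendsto_order.mp h6).2 _ hcon
      have h8 := (tendsto_order.mp hclose).2 (δ / 8) (by positivity)
      filter_upwards [hx1, h7, h8, hlines] with N hN1 hN2 hN3 hN4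
      refine hN1.trans ?_
      have e : (bx k N fun n => errb Φ ℓ R H S (q n) x) =
          ∑ v ∈ S, (bx k N fun n => |H v (Φ (q n v) x)|) +
          ∑ v ∈ S, ∑ w ∈ S.erase v, bx k N
            (fun n => if |ℓ (q n v) - ℓ (q n w)| < R then (1 : ℝ) else 0) := by
        unfold errb
        rw [bx_add, bx_sum, bx_sum]
        congr 1
        refine Finset.sum_congr rfl fun v _ => ?_
        rw [bx_sum]
      have e2 : ∑ v ∈ S, (bx k N fun n => |H v (Φ (q n v) x)|) =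
          ∑ v ∈ S₁, (bx k N fun n => |H v (Φ (q n v) x)|) +
          ∑ v ∈ S₂, (bx k N fun n => |H v (Φ (q n v) x)|) :=
        (Finset.sum_filter_add_sum_filter_not S good _).symm
      have e3 : ∑ v ∈ S₂, (bx k N fun n => |H v (Φ (q n v) x)|) ≤ δ / 8 := by
        have h9 : ∀ v ∈ S₂, (bx k N fun n => |H v (Φ (q n v) x)|) ≤ (δ / 8) / (S.card + 1) := by
          intro v hv
          refine (bx_mono fun n => (((hHs v (hmem₂ v hv).1).2 (hmem₂ v hv).2 _).trans
            (min_le_right _ _))).trans (bx_const_le (by positivity))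
        refine (Finset.sum_le_sum h9).trans ?_
        rw [Finset.sum_const, nsmul_eq_mul, mul_div_assoc', div_le_iff₀ (by positivity)]
        nlinarith
      have e4 : ∑ l ∈ U, bx k N (fun n => badl ℓ C R S D q l n) ≤ δ / 8 := by
        refine (Finset.sum_le_sum hN4).trans ?_
        rw [Finset.sum_const, nsmul_eq_mul, mul_div_assoc', div_le_iff₀ (by positivity)]
        nlinarith
      rw [e, e2]
      linarith
    have h10 : μ {x | ¬ ∀ᶠ N : Fin k → ℕ in atTop,
        |bx k N fun n => ∏ v, F v (Φ (q n v) x)| ≤ δ} ≤ μ {x | δ / 8 ≤ T x} :=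
      measure_mono_ae hsub
    refine h10.trans ?_
    have h9 : μ {x | δ / 8 ≤ T x} = ENNReal.ofReal (μ.real {x | δ / 8 ≤ T x}) := by
      rw [measureReal_def, ENNReal.ofReal_toReal (measure_ne_top _ _)]
    rw [h9]
    calc ENNReal.ofReal (μ.real {x | δ / 8 ≤ T x}) ≤ ENNReal.ofReal (ε : ℝ) :=
          ENNReal.ofReal_le_ofReal hmark'
      _ = ε := ENNReal.ofReal_coe_nnreal
  have hall := ae_all_iff.mpr fun i : ℕ => hbad (1 / ((i : ℝ) + 1)) (by positivity)
  filter_upwards [hall] with x hx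
  rw [Metric.tendsto_nhds]
  intro ε hε
  obtain ⟨i, hi⟩ := exists_nat_one_div_lt hε
  filter_upwards [hx i] with N hN
  rw [Real.dist_eq, sub_zero]
  exact hN.trans_lt hi

end Pool.Agent.Q96.KP
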