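import Pool.Agent.Q96.KP.Poly1
import Pool.Agent.Q96.KP.Zero

/-!
# Polynomials in several variables on boxes
-/

set_option autoImplicit false
set_option linter.unusedSectionVars false

open MeasureTheory Filter Topology MvPolynomial

noncomputable section

namespace Pool.Agent.Q96.KP

open Pool.Agent.TH784.KE
open Pool.Agent.W761.Box (bx bx_add bx_mul bx_sum bx_mono bx_abs bx_const_le bx_nonneg)
open Pool.Agent.TH784.AA (bxs mem_bxs vol vol_pos vol_nonneg card_bxs sum_fiber bxs_mono)

variable {k : ℕ}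

/-- value at a point of `ℕ^k` -/
def ev (p : MvPolynomial (Fin k) ℝ) (n : Fin k → ℕ) : ℝ := eval (fun l => (n l : ℝ)) p

/-- the restriction to a line -/
def sl (p : MvPolynomial (Fin k) ℝ) (l : Fin k) (n : Fin k → ℕ) : Polynomial ℝ :=
  eval₂ Polynomial.C (fun i => if i = l then Polynomial.X else Polynomial.C (n i : ℝ)) p

theorem sl_eval (p : MvPolynomial (Fin k) ℝ) (l : Fin k) (n : Fin k → ℕ) (t : ℕ) :
    (sl p l n).eval (t : ℝ) = ev p (Function.update n l t) := by
  unfold sl ev
  rw [← Polynomial.coe_evalRingHom, MvPolynomial.eval₂_comp_left]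
  have h1 : (Polynomial.evalRingHom (t : ℝ)).comp Polynomial.C = RingHom.id ℝ := by
    ext
    simp
  rw [h1]
  have h2 : ((Polynomial.evalRingHom (t : ℝ)) ∘ fun i => if i = l then Polynomial.X else
      Polynomial.C (n i : ℝ)) = fun i => ((Function.update n l t i : ℕ) : ℝ) := by
    funext i
    by_cases hi : i = l
    · subst hi
      simp
    · simp [hi]
  rw [h2]
  rfl

/-- the leading coefficient in the variable `l` -/
def lead (p : MvPolynomial (Fin k) ℝ) (l : Fin k) : MvPolynomial (Fin k) ℝ :=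
  ∑ m ∈ p.support.filter (fun m => m l = p.degreeOf l), monomial (m.erase l) (p.coeff m)

theorem term_eq (p : MvPolynomial (Fin k) ℝ) (l : Fin k) (n : Fin k → ℕ) (m : Fin k →₀ ℕ) :
    Polynomial.C (p.coeff m) * ∏ i, (if i = l then Polynomial.X else
      Polynomial.C (n i : ℝ)) ^ m i =
    Polynomial.C (p.coeff m * ∏ i ∈ Finset.univ.erase l, (n i : ℝ) ^ m i) *
      Polynomial.X ^ m l := by
  rw [← Finset.mul_prod_erase Finset.univ _ (Finset.mem_univ l), if_pos rfl, Polynomial.C_mul,
    map_prod]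
  have h1 : ∏ i ∈ Finset.univ.erase l, (if i = l then (Polynomial.X : Polynomial ℝ) else
      Polynomial.C (n i : ℝ)) ^ m i =
      ∏ i ∈ Finset.univ.erase l, Polynomial.C ((n i : ℝ) ^ m i) := by
    refine Finset.prod_congr rfl fun i hi => ?_
    rw [if_neg (Finset.ne_of_mem_erase hi), Polynomial.C_pow]
  rw [h1]
  ring

theorem mono_eval (m : Fin k →₀ ℕ) (l : Fin k) (n : Fin k → ℕ) (c : ℝ) :
    eval (fun l => (n l : ℝ)) (monomial (m.erase l) c) =
      c * ∏ i ∈ Finset.univ.erase l, (n i : ℝ) ^ m i := by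
  rw [eval_monomial, Finsupp.prod_fintype _ _ (fun i => pow_zero _),
    ← Finset.mul_prod_erase Finset.univ _ (Finset.mem_univ l), Finsupp.erase_same, pow_zero,
    one_mul]
  congr 1
  refine Finset.prod_congr rfl fun i hi => ?_
  rw [Finsupp.erase_ne (Finset.ne_of_mem_erase hi)]

theorem sl_coeff (p : MvPolynomial (Fin k) ℝ) (l : Fin k) (n : Fin k → ℕ) :
    (sl p l n).coeff (p.degreeOf l) = ev (lead p l) n := by
  unfold sl ev lead
  rw [eval₂_eq', Polynomial.finsetSum_coeff, map_sum, Finset.sum_filter]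
  refine Finset.sum_congr rfl fun m _ => ?_
  rw [term_eq, Polynomial.coeff_C_mul, Polynomial.coeff_X_pow, mono_eval]
  by_cases h : m l = p.degreeOf l
  · rw [if_pos h, if_pos h.symm, mul_one]
  · rw [if_neg h, if_neg (Ne.symm h), mul_zero]

theorem sl_natDegree (p : MvPolynomial (Fin k) ℝ) (l : Fin k) (n : Fin k → ℕ) :
    (sl p l n).natDegree ≤ p.degreeOf l := by
  unfold sl
  rw [eval₂_eq']
  refine Polynomial.natDegree_sum_le_of_forall_le _ _ fun m hm => ?_
  rw [term_eq]
  exact (Polynomial.natDegree_C_mul_X_pow_le _ _).trans (monomial_le_degreeOf l hm)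

theorem lead_indep (p : MvPolynomial (Fin k) ℝ) (l : Fin k) (n : Fin k → ℕ) (t : ℕ) :
    ev (lead p l) (Function.update n l t) = ev (lead p l) n := by
  unfold ev lead
  rw [map_sum, map_sum]
  refine Finset.sum_congr rfl fun m _ => ?_
  rw [mono_eval, mono_eval]
  congr 1
  refine Finset.prod_congr rfl fun i hi => ?_
  rw [Function.update_of_ne (Finset.ne_of_mem_erase hi)]

theorem lead_ne {p : MvPolynomial (Fin k) ℝ} {l : Fin k} (hp : 1 ≤ p.degreeOf l) :
    lead p l ≠ 0 := by
  classical
  have hp0 : p ≠ 0 := by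
    rintro rfl
    rw [degreeOf_zero] at hp
    omega
  obtain ⟨m₀, hm₀, hm₀'⟩ := Finset.exists_mem_eq_sup p.support (support_nonempty.2 hp0)
    fun m => m l
  rw [← degreeOf_eq_sup] at hm₀'
  intro h0
  have h1 : coeff (m₀.erase l) (lead p l) = coeff m₀ p := by
    unfold lead
    rw [coeff_sum, Finset.sum_eq_single m₀]
    · rw [coeff_monomial, if_pos rfl]
    · intro m hm hne
      rw [coeff_monomial, if_neg]
      intro he
      apply hne
      ext i
      by_cases hi : i = l
      · subst hi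
        rw [(Finset.mem_filter.1 hm).2, hm₀']
      · have := DFunLike.congr_fun he i
        rwa [Finsupp.erase_ne hi, Finsupp.erase_ne hi] at this
    · intro hn
      exact absurd (Finset.mem_filter.2 ⟨hm₀, hm₀'.symm⟩) hn
  rw [h0, coeff_zero] at h1
  exact (mem_support_iff.1 hm₀) h1.symm

theorem lead_deg {p : MvPolynomial (Fin k) ℝ} {l : Fin k} (hp : 1 ≤ p.degreeOf l) :
    (lead p l).totalDegree < p.totalDegree := by
  classical
  have hpos : 0 < p.totalDegree := lt_of_lt_of_le hp (degreeOf_le_totalDegree p l)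
  unfold lead
  refine lt_of_le_of_lt (totalDegree_finsetSum_le (d := p.totalDegree - 1) fun m hm => ?_) (by omega)
  refine (totalDegree_monomial_le _ _).trans ?_
  have h1 := (Finset.mem_filter.1 hm)
  have h2 := le_totalDegree h1.1
  rw [Finsupp.sum_fintype _ _ (fun _ => rfl)] at h2 ⊢
  simp only [id_eq]
  rw [← Finset.add_sum_erase Finset.univ _ (Finset.mem_univ l)] at h2 ⊢
  rw [Finsupp.erase_same, zero_add]
  have h3 : ∑ i ∈ Finset.univ.erase l, (m.erase l) i = ∑ i ∈ Finset.univ.erase l, m i :=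
    Finset.sum_congr rfl fun i hi => Finsupp.erase_ne (Finset.ne_of_mem_erase hi)
  rw [h3]
  have h4 := h1.2
  omega

theorem exists_var {p : MvPolynomial (Fin k) ℝ} (hp : 0 < p.totalDegree) :
    ∃ l, 1 ≤ p.degreeOf l := by
  by_contra hcon
  push Not at hcon
  have h1 : p.totalDegree ≤ 0 := by
    unfold totalDegree
    refine Finset.sup_le fun m hm => ?_
    rw [Finsupp.sum_fintype _ _ (fun _ => rfl)]
    refine le_of_eq (Finset.sum_eq_zero fun i _ => ?_)
    have := monomial_le_degreeOf i hm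
    have := hcon i
    omega
  omega

open Classical in
/-- the set `B` has density zero in boxes -/
def Dens (B : (Fin k → ℕ) → Prop) : Prop :=
  Tendsto (fun N => bx k N (fun n => if B n then (1 : ℝ) else 0)) atTop (𝓝 0)

/-- most lines in the direction `l` have bounded multiplicity -/
def KeyL (p : MvPolynomial (Fin k) ℝ) (l : Fin k) : Prop :=
  ∃ B : (Fin k → ℕ) → Prop, Dens B ∧ ∀ R : ℝ, 0 < R → ∃ C : ℕ, 0 < C ∧
    ∀ n, ¬ B n → Mult C R fun t => ev p (Function.update n l t)

theorem dens_false : Dens (k := k) fun _ => False := by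
  unfold Dens
  refine tendsto_const_nhds.congr fun N => ?_
  simp [bx]

theorem keyL_of {p : MvPolynomial (Fin k) ℝ} {l : Fin k} (hp : 1 ≤ p.degreeOf l)
    (h : 0 < (lead p l).totalDegree → ∀ R : ℝ, 0 < R → Dens fun n => |ev (lead p l) n| < R) :
    KeyL p l := by
  have hmain : ∀ c₀ : ℝ, 0 < c₀ → ∀ R : ℝ, 0 < R → ∃ C : ℕ, 0 < C ∧
      ∀ n, c₀ ≤ |ev (lead p l) n| → Mult C R fun t => ev p (Function.update n l t) := by
    intro c₀ hc₀ R hR
    obtain ⟨C, hC, hCm⟩ := mult_unif hp hc₀ hR
    refine ⟨C, hC, fun n hn => ?_⟩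
    have h1 := hCm (sl p l n) (sl_natDegree p l n) (by rw [sl_coeff]; exact hn)
    simpa only [sl_eval] using h1
  rcases Nat.eq_zero_or_pos (lead p l).totalDegree with h0 | h0
  · have hC := totalDegree_eq_zero_iff_eq_C.1 h0
    set c := coeff 0 (lead p l) with hc
    have hc0 : c ≠ 0 := by
      intro h1
      rw [h1, map_zero] at hC
      exact lead_ne hp hC
    refine ⟨fun _ => False, dens_false, fun R hR => ?_⟩
    obtain ⟨C, hC1, hC2⟩ := hmain |c| (abs_pos.2 hc0) R hR
    refine ⟨C, hC1, fun n _ => hC2 n ?_⟩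
    rw [hC]
    unfold ev
    rw [eval_C]
  · refine ⟨fun n => |ev (lead p l) n| < 1, h h0 1 one_pos, fun R hR => ?_⟩
    obtain ⟨C, hC1, hC2⟩ := hmain 1 one_pos R hR
    exact ⟨C, hC1, fun n hn => hC2 n (not_lt.1 hn)⟩

theorem dens_of_keyL {p : MvPolynomial (Fin k) ℝ} {l : Fin k} (h : KeyL p l) {R : ℝ}
    (hR : 0 < R) : Dens fun n => |ev p n| < R := by
  classical
  obtain ⟨B, hB, hBC⟩ := h
  obtain ⟨C, hC, hCm⟩ := hBC (2 * R) (by positivity)
  unfold Dens at hB ⊢
  have h1 : Tendsto (fun N : Fin k → ℕ => (C : ℝ) / (N l : ℝ)) atTop (𝓝 0) := by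
    refine Tendsto.div_atTop tendsto_const_nhds ?_
    refine tendsto_natCast_atTop_atTop.comp (tendsto_atTop_atTop.2 fun b => ⟨fun _ => b,
      fun N hN => hN l⟩)
  have h2 := hB.add h1
  rw [add_zero] at h2
  refine squeeze_zero' (Eventually.of_forall fun N => bx_nonneg fun n => by
    split_ifs <;> norm_num) ?_ h2
  refine eventually_atTop.2 ⟨fun _ => 1, fun N hN => ?_⟩
  have hNl : (0 : ℝ) < N l := by
    have : 1 ≤ N l := hN l
    positivity
  rw [bx_slice hN l]
  have h3 : ∀ n : Fin k → ℕ, (N l : ℝ)⁻¹ * ∑ t ∈ Finset.range (N l),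
      (if |ev p (Function.update n l t)| < R then (1 : ℝ) else 0) ≤
      (if B n then (1 : ℝ) else 0) + (C : ℝ) / (N l : ℝ) := by
    intro n
    rw [← Finset.sum_filter, Finset.sum_const, nsmul_eq_mul, mul_one]
    by_cases hn : B n
    · rw [if_pos hn]
      have h4 : (((Finset.range (N l)).filter fun t => |ev p (Function.update n l t)| < R).card : ℝ)
          ≤ N l := by
        exact_mod_cast (Finset.card_filter_le _ _).trans (Finset.card_range _).le
      have h5 : (N l : ℝ)⁻¹ * (((Finset.range (N l)).filter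
          fun t => |ev p (Function.update n l t)| < R).card : ℝ) ≤ 1 := by
        rw [inv_mul_le_iff₀ hNl, mul_one]
        exact h4
      have h6 : 0 ≤ (C : ℝ) / (N l : ℝ) := by positivity
      linarith
    · rw [if_neg hn, zero_add, div_eq_inv_mul]
      refine mul_le_mul_of_nonneg_left ?_ (by positivity)
      have h7 := hCm n hn (-R) (N l)
      have h8 : ((Finset.range (N l)).filter fun t => |ev p (Function.update n l t)| < R).card ≤
          C := by
        refine le_trans (Finset.card_le_card ?_) h7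
        intro t ht
        rw [Finset.mem_filter] at ht ⊢
        have h9 := abs_lt.1 ht.2
        exact ⟨ht.1, h9.1.le, by linarith [h9.2]⟩
      exact_mod_cast h8
  refine (bx_mono h3).trans ?_
  rw [bx_add]
  refine add_le_add (le_of_eq ?_) (bx_const_le (by positivity))
  rfl

theorem poly_main : ∀ (d : ℕ) (p : MvPolynomial (Fin k) ℝ), p.totalDegree ≤ d →
    (0 < p.totalDegree → ∀ R : ℝ, 0 < R → Dens fun n => |ev p n| < R) ∧
      ∀ l, 1 ≤ p.degreeOf l → KeyL p l := by
  intro d
  induction d with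
  | zero =>
    intro p hp
    refine ⟨fun h => by omega, fun l hl => ?_⟩
    have := degreeOf_le_totalDegree p l
    omega
  | succ d ih =>
    intro p hp
    have h2 : ∀ l, 1 ≤ p.degreeOf l → KeyL p l := by
      intro l hl
      have h3 := lead_deg hl
      exact keyL_of hl (ih (lead p l) (by omega)).1
    refine ⟨fun h R hR => ?_, h2⟩
    obtain ⟨l, hl⟩ := exists_var h
    exact dens_of_keyL (h2 l hl) hR

end Pool.Agent.Q96.KP
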