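import Pool.Agent.Q96.KP.Char

/-!
# From boxes `[0, M)` to boxes `[1, M]`; levels; single averages
-/

set_option autoImplicit false
set_option linter.unusedSectionVars false

open MeasureTheory Filter Topology

noncomputable section

namespace Pool.Agent.Q96.KP

open Pool.Agent.TH784.KE
open Pool.Agent.W761.Box (bx bxc BM Good1 bx_add bx_mul bx_sum bx_mono bx_abs bx_const_le
  bx_nonneg dz orb)

/-- averages over `[1, M_1] × ⋯ × [1, M_k]` -/
def av1 (k : ℕ) (M : Fin k → ℕ) (a : (Fin k → ℕ) → ℂ) : ℂ :=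
  (∏ l, (M l : ℂ))⁻¹ * ∑ m ∈ Fintype.piFinset (fun l => Finset.Icc 1 (M l)), a m

theorem shift_lim {k : ℕ} {C : ℝ} {a : (Fin k → ℕ) → ℂ} (ha : ∀ n, ‖a n‖ ≤ C) :
    Tendsto (fun M => av1 k M a - bxc k M a) atTop (𝓝 0) := by
  classical
  have hC : 0 ≤ C := (norm_nonneg _).trans (ha 0)
  have hlim : Tendsto (fun M : Fin k → ℕ => 2 * C * (∏ l, (1 + 1 / (M l : ℝ)) - 1)) atTop
      (𝓝 0) := by
    have h1 : Tendsto (fun M : Fin k → ℕ => ∏ l, (1 + 1 / (M l : ℝ))) atTop
        (𝓝 (∏ _l : Fin k, (1 + 0 : ℝ))) := by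
      refine tendsto_finsetProd _ fun l _ => ?_
      refine Tendsto.const_add 1 ?_
      refine Tendsto.div_atTop tendsto_const_nhds ?_
      exact tendsto_natCast_atTop_atTop.comp (tendsto_atTop_atTop.2 fun b => ⟨fun _ => b,
        fun N hN => hN l⟩)
    have h2 := (h1.sub_const 1).const_mul (2 * C)
    simpa using h2
  refine squeeze_zero_norm' ?_ hlim
  refine eventually_atTop.2 ⟨fun _ => 1, fun M hM => ?_⟩
  have hM1 : ∀ l, 1 ≤ M l := hM
  set K := Fintype.piFinset (fun l => Finset.range (M l + 1)) with hK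
  set I := Fintype.piFinset (fun l => Finset.Icc 1 (M l)) with hI
  set Z := Fintype.piFinset (fun l => Finset.range (M l)) with hZ
  have hIK : I ⊆ K := Fintype.piFinset_subset _ _ fun l x hx => by
    rw [Finset.mem_Icc] at hx
    rw [Finset.mem_range]
    omega
  have hZK : Z ⊆ K := Fintype.piFinset_subset _ _ fun l x hx => by
    rw [Finset.mem_range] at hx ⊢
    omega
  have hIc : I.card = ∏ l, M l := by
    rw [hI, Fintype.card_piFinset]
    simp
  have hZc : Z.card = ∏ l, M l := by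
    rw [hZ, Fintype.card_piFinset]
    simp
  have hKc : K.card = ∏ l, (M l + 1) := by
    rw [hK, Fintype.card_piFinset]
    simp
  have hb : ∀ T : Finset (Fin k → ℕ), ‖∑ m ∈ T, a m‖ ≤ C * T.card := by
    intro T
    refine (norm_sum_le _ _).trans ((Finset.sum_le_sum fun m _ => ha m).trans ?_)
    rw [Finset.sum_const, nsmul_eq_mul, mul_comm]
  have h1 : ∑ m ∈ I, a m - ∑ m ∈ Z, a m = ∑ m ∈ K \ Z, a m - ∑ m ∈ K \ I, a m := by
    have e1 := Finset.sum_sdiff (f := a) hIK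
    have e2 := Finset.sum_sdiff (f := a) hZK
    linear_combination e1 - e2
  have hc1 : ((K \ Z).card : ℝ) = ∏ l, ((M l : ℝ) + 1) - ∏ l, (M l : ℝ) := by
    have h2 : (K \ Z).card + Z.card = K.card := by
      rw [Finset.card_sdiff_of_subset hZK]
      exact Nat.sub_add_cancel (Finset.card_le_card hZK)
    have h3 : ((K \ Z).card : ℝ) + Z.card = K.card := by exact_mod_cast h2
    rw [hZc, hKc] at h3
    push_cast at h3
    linarith
  have hc2 : ((K \ I).card : ℝ) = ∏ l, ((M l : ℝ) + 1) - ∏ l, (M l : ℝ) := by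
    have h2 : (K \ I).card + I.card = K.card := by
      rw [Finset.card_sdiff_of_subset hIK]
      exact Nat.sub_add_cancel (Finset.card_le_card hIK)
    have h3 : ((K \ I).card : ℝ) + I.card = K.card := by exact_mod_cast h2
    rw [hIc, hKc] at h3
    push_cast at h3
    linarith
  have hpos : (0 : ℝ) < ∏ l, (M l : ℝ) := Finset.prod_pos fun l _ => by
    have := hM1 l
    positivity
  have hratio : ∏ l, (1 + 1 / (M l : ℝ)) = (∏ l, (M l : ℝ))⁻¹ * ∏ l, ((M l : ℝ) + 1) := by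
    rw [← Finset.prod_inv_distrib, ← Finset.prod_mul_distrib]
    refine Finset.prod_congr rfl fun l _ => ?_
    have : (0 : ℝ) < M l := by
      have := hM1 l
      positivity
    field_simp
  have e : av1 k M a - bxc k M a = (∏ l, (M l : ℂ))⁻¹ *
      (∑ m ∈ K \ Z, a m - ∑ m ∈ K \ I, a m) := by
    rw [← h1, av1, bxc, mul_sub]
  rw [e, norm_mul, norm_inv, norm_prod]
  simp only [Complex.norm_natCast]
  have hn : ‖∑ m ∈ K \ Z, a m - ∑ m ∈ K \ I, a m‖ ≤
      2 * C * (∏ l, ((M l : ℝ) + 1) - ∏ l, (M l : ℝ)) := by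
    refine (norm_sub_le _ _).trans ((add_le_add (hb _) (hb _)).trans (le_of_eq ?_))
    rw [hc1, hc2]
    ring
  calc (∏ l, (M l : ℝ))⁻¹ * ‖∑ m ∈ K \ Z, a m - ∑ m ∈ K \ I, a m‖ ≤
      (∏ l, (M l : ℝ))⁻¹ * (2 * C * (∏ l, ((M l : ℝ) + 1) - ∏ l, (M l : ℝ))) :=
        mul_le_mul_of_nonneg_left hn (inv_pos.2 hpos).le
    _ = 2 * C * (∏ l, (1 + 1 / (M l : ℝ)) - 1) := by
        rw [hratio]
        field_simp

theorem lim_of_bxc {k : ℕ} {C : ℝ} {a : (Fin k → ℕ) → ℂ} (ha : ∀ n, ‖a n‖ ≤ C) {L : ℂ}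
    (h : Tendsto (fun M => bxc k M a) atTop (𝓝 L)) :
    Tendsto (fun M => av1 k M a) atTop (𝓝 L) := by
  have h1 := h.add (shift_lim ha)
  rw [add_zero] at h1
  refine h1.congr fun M => ?_
  ring

theorem lim_of_av1 {k : ℕ} {C : ℝ} {a : (Fin k → ℕ) → ℂ} (ha : ∀ n, ‖a n‖ ≤ C) {L : ℂ}
    (h : Tendsto (fun M => av1 k M a) atTop (𝓝 L)) :
    Tendsto (fun M => bxc k M a) atTop (𝓝 L) := by
  have h1 := h.sub (shift_lim ha)
  rw [sub_zero] at h1
  refine h1.congr fun M => ?_
  ring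

variable {X : Type*} [MeasurableSpace X] {μ : Measure X} [IsProbabilityMeasure μ]
variable {G : Type*} [Group G]
variable {Φ : G →* Equiv.Perm X} {ℓ : G → ℝ}

/-- ordered products of powers -/
theorem orb_prod {k : ℕ} (u : Fin k → G) (m : Fin k → ℕ) (x : X) :
    orb k (fun l => (Φ (u l) : X → X)) m x = Φ (List.ofFn fun l => u l ^ m l).prod x := by
  induction k with
  | zero => simp [orb]
  | succ k ih =>
    have h1 := ih (Fin.tail u) (Fin.tail m)
    show (Φ (u 0) : X → X)^[m 0] (orb k (fun l => (Φ (Fin.tail u l) : X → X)) (Fin.tail m) x) = _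
    rw [h1, List.ofFn_succ, List.prod_cons, map_mul, map_pow, Equiv.Perm.mul_apply,
      Equiv.Perm.coe_pow]
    rfl

theorem good_orb (hFl : ∀ g, MeasurePreserving (Φ g) μ μ) {k : ℕ} (w : G) (u : Fin k → G)
    {q : (Fin k → ℕ) → G} (hq : ∀ m, q m = w * (List.ofFn fun l => u l ^ m l).prod) :
    Good1 μ fun m : Fin k → ℕ => (Φ (q m) : X → X) := by
  intro H hH hb
  obtain ⟨C, hC⟩ := hb
  have h1 := dz k (fun l => (Φ (u l) : X → X)) (fun l => hFl _) (fun x => H (Φ w x))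
    (hH.comp (hFl w).measurable) C fun x => hC _
  filter_upwards [h1] with x hx
  obtain ⟨L, hL⟩ := hx
  refine ⟨L, hL.congr fun N => ?_⟩
  congr 1
  funext m
  show H (Φ w (orb k (fun l => (Φ (u l) : X → X)) m x)) = H (Φ (q m) x)
  rw [orb_prod, hq, map_mul, Equiv.Perm.mul_apply]

/-- levels of ordered products -/
theorem level_prod (hℓ : ∀ a b : G, ℓ (a * b) = ℓ a + ℓ b) {d : ℕ} (t : Fin d → G)
    (z : Fin d → ℤ) : ℓ (List.ofFn fun i => t i ^ z i).prod = ∑ i, ℓ (t i) * (z i : ℝ) := by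
  have h1 : ℓ 1 = 0 := by
    have := hℓ 1 1
    rw [mul_one] at this
    linarith
  have hinv : ∀ a, ℓ a⁻¹ = -ℓ a := by
    intro a
    have := hℓ a a⁻¹
    rw [mul_inv_cancel, h1] at this
    linarith
  have hpow : ∀ (a : G) (n : ℕ), ℓ (a ^ n) = ℓ a * n := by
    intro a n
    induction n with
    | zero => simp [h1]
    | succ n ih =>
      rw [pow_succ, hℓ, ih]
      push_cast
      ring
  have hz : ∀ (a : G) (n : ℤ), ℓ (a ^ n) = ℓ a * n := by
    intro a n
    cases n with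
    | ofNat n =>
      rw [Int.ofNat_eq_natCast, zpow_natCast, hpow]
      norm_cast
    | negSucc n =>
      rw [zpow_negSucc, hinv, hpow]
      push_cast
      ring
  induction d with
  | zero => simp [h1]
  | succ d ih =>
    rw [List.ofFn_succ, List.prod_cons, hℓ, hz, ih, Fin.sum_univ_succ]

end Pool.Agent.Q96.KP
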