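import Pool.Agent.Q96.KP.Fin

/-!
# Kolmogorov extensions: two-sided averages along arbitrary sequences
-/

set_option autoImplicit false
set_option linter.unusedSectionVars false

open MeasureTheory Filter Topology
open scoped ENNReal

noncomputable section

namespace Pool.Agent.Q96.KP

open Pool.Agent.TH784.KE
open Pool.Agent.W761.Box (bx bxc BM Good1 bx_add bx_mul bx_sum bx_mono bx_abs bx_const_le
  bx_nonneg dz orb)

/-- the enumeration `0, 1, -1, 2, -2, …` of the integers -/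
def zz (n : ℕ) : ℤ := if n % 2 = 0 then -((n / 2 : ℕ) : ℤ) else (((n + 1) / 2 : ℕ) : ℤ)

theorem zz_inj : Function.Injective zz := by
  intro a b h
  unfold zz at h
  split_ifs at h <;> omega

theorem zz_abs (n : ℕ) : -(n : ℤ) ≤ zz n ∧ zz n ≤ n := by
  unfold zz
  split_ifs <;> omega

theorem zz_sum {E : Type*} [AddCommMonoid E] (F : ℤ → E) (N : ℕ) :
    ∑ t ∈ Finset.range (2 * N + 1), F (zz t) = ∑ n ∈ Finset.Icc (-(N : ℤ)) (N : ℤ), F n := by
  induction N with
  | zero =>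
    simp [zz]
  | succ N ih =>
    have e3 : Finset.Icc (-((N + 1 : ℕ) : ℤ)) ((N + 1 : ℕ) : ℤ) =
        insert ((N + 1 : ℕ) : ℤ) (insert (-((N + 1 : ℕ) : ℤ))
          (Finset.Icc (-(N : ℤ)) (N : ℤ))) := by
      ext z
      simp only [Finset.mem_insert, Finset.mem_Icc]
      push_cast
      omega
    have e4 : 2 * (N + 1) + 1 = (2 * N + 1) + 1 + 1 := by ring
    have z1 : zz (2 * N + 1) = ((N + 1 : ℕ) : ℤ) := by
      unfold zz
      rw [if_neg (by omega)]
      congr 1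
      omega
    have z2 : zz (2 * N + 1 + 1) = -((N + 1 : ℕ) : ℤ) := by
      unfold zz
      rw [if_pos (by omega)]
      congr 2
      omega
    rw [e4, Finset.sum_range_succ, Finset.sum_range_succ, ih, z1, z2, e3, Finset.sum_insert,
      Finset.sum_insert]
    · abel
    · simp only [Finset.mem_Icc]
      push_cast
      omega
    · simp only [Finset.mem_insert, Finset.mem_Icc]
      push_cast
      omega

/-- the levels lie in every interval of length `R` boundedly often -/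
def BddMult (lam : ℤ → ℝ) : Prop :=
  ∀ R : ℝ, 0 < R → ∃ C : ℕ, ∀ (a : ℝ) (M : ℕ),
    ((Finset.Icc (-(M : ℤ)) (M : ℤ)).filter fun n => a ≤ lam n ∧ lam n < a + R).card ≤ C

open Classical in
/-- `lam - lam'` is bounded only on sets of density zero -/
def Apart (lam lam' : ℤ → ℝ) : Prop :=
  ∀ R : ℝ, 0 < R → Tendsto (fun N : ℕ => ((2 * N + 1 : ℕ) : ℝ)⁻¹ *
    ∑ n ∈ Finset.Icc (-(N : ℤ)) (N : ℤ), (if |lam n - lam' n| < R then (1 : ℝ) else 0))
    atTop (𝓝 0)

theorem mult_zz {lam : ℤ → ℝ} (h : BddMult lam) {R : ℝ} (hR : 0 < R) :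
    ∃ C : ℕ, 0 < C ∧ Mult C R fun t => lam (zz t) := by
  classical
  obtain ⟨C, hC⟩ := h R hR
  refine ⟨C + 1, Nat.succ_pos C, fun a M => ?_⟩
  refine le_trans ?_ ((hC a M).trans (Nat.le_succ C))
  refine Finset.card_le_card_of_injOn zz ?_ zz_inj.injOn
  intro t ht
  rw [Finset.mem_coe, Finset.mem_filter] at ht ⊢
  refine ⟨?_, ht.2⟩
  have h1 := zz_abs t
  have h2 := Finset.mem_range.1 ht.1
  rw [Finset.mem_Icc]
  omega

/-- one-dimensional boxes -/
theorem bx_one (N : Fin 1 → ℕ) (a : (Fin 1 → ℕ) → ℝ) :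
    bx 1 N a = (N 0 : ℝ)⁻¹ * ∑ t ∈ Finset.range (N 0), a (fun _ => t) := by
  rw [bx_eq]
  congr 1
  · unfold Pool.Agent.TH784.AA.vol
    rw [Fin.prod_univ_one]
  · refine Finset.sum_nbij' (fun m => m 0) (fun n _ => n) ?_ ?_ ?_ ?_ ?_
    · intro m hm
      rw [Pool.Agent.TH784.AA.mem_bxs] at hm
      exact Finset.mem_range.2 (hm 0)
    · intro n hn
      rw [Pool.Agent.TH784.AA.mem_bxs]
      intro j
      rw [Subsingleton.elim j 0]
      exact Finset.mem_range.1 hn
    · intro m _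
      funext j
      rw [Subsingleton.elim j 0]
    · intro n _
      rfl
    · intro m _
      congr 1
      funext j
      rw [Subsingleton.elim j 0]

theorem bxc_one (N : Fin 1 → ℕ) (a : (Fin 1 → ℕ) → ℂ) :
    bxc 1 N a = (N 0 : ℂ)⁻¹ * ∑ t ∈ Finset.range (N 0), a (fun _ => t) := by
  rw [Pool.Agent.TH784.AA.bxc_eq]
  congr 1
  · unfold Pool.Agent.TH784.AA.vol
    rw [Fin.prod_univ_one]
    push_cast
    rfl
  · refine Finset.sum_nbij' (fun m => m 0) (fun n _ => n) ?_ ?_ ?_ ?_ ?_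
    · intro m hm
      rw [Pool.Agent.TH784.AA.mem_bxs] at hm
      exact Finset.mem_range.2 (hm 0)
    · intro n hn
      rw [Pool.Agent.TH784.AA.mem_bxs]
      intro j
      rw [Subsingleton.elim j 0]
      exact Finset.mem_range.1 hn
    · intro m _
      funext j
      rw [Subsingleton.elim j 0]
    · intro n _
      rfl
    · intro m _
      congr 1
      funext j
      rw [Subsingleton.elim j 0]

/-- averages of a bounded sequence from its averages at the odd times -/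
theorem odd_to_all {a : ℕ → ℝ} {C : ℝ} (ha : ∀ t, |a t| ≤ C) {L : ℝ}
    (h : Tendsto (fun N : ℕ => ((2 * N + 1 : ℕ) : ℝ)⁻¹ * ∑ t ∈ Finset.range (2 * N + 1), a t)
      atTop (𝓝 L)) :
    Tendsto (fun N : ℕ => (N : ℝ)⁻¹ * ∑ t ∈ Finset.range N, a t) atTop (𝓝 L) := by
  have hC : 0 ≤ C := (abs_nonneg _).trans (ha 0)
  have hb : ∀ N : ℕ, |∑ t ∈ Finset.range N, a t| ≤ C * N := by
    intro N
    refine (Finset.abs_sum_le_sum_abs _ _).trans ((Finset.sum_le_sum fun t _ => ha t).trans ?_)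
    rw [Finset.sum_const, Finset.card_range, nsmul_eq_mul, mul_comm]
  have hdiff : ∀ N : ℕ, 1 ≤ N → |((N : ℝ)⁻¹ * ∑ t ∈ Finset.range N, a t) -
      (((2 * ((N - 1) / 2) + 1 : ℕ) : ℝ)⁻¹ *
        ∑ t ∈ Finset.range (2 * ((N - 1) / 2) + 1), a t)| ≤ 2 * C / N := by
    intro N hN
    have hN' : (0 : ℝ) < N := by exact_mod_cast hN
    rcases Nat.even_or_odd' N with ⟨c, hc | hc⟩
    · have h1 : 2 * ((N - 1) / 2) + 1 = N - 1 := by omega
      have h2 : N = (N - 1) + 1 := by omega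
      rw [h1]
      set K := N - 1 with hK
      have hK1 : 1 ≤ K := by omega
      have hK' : (0 : ℝ) < K := by exact_mod_cast hK1
      have hNK : (N : ℝ) = K + 1 := by
        rw [h2]
        push_cast
        rfl
      have e1 : ∑ t ∈ Finset.range N, a t = ∑ t ∈ Finset.range K, a t + a K := by
        rw [h2, Finset.sum_range_succ]
      rw [e1]
      have e2 : (N : ℝ)⁻¹ * (∑ t ∈ Finset.range K, a t + a K) -
          (K : ℝ)⁻¹ * ∑ t ∈ Finset.range K, a t =
          (N : ℝ)⁻¹ * (a K - (K : ℝ)⁻¹ * ∑ t ∈ Finset.range K, a t) := by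
        rw [hNK]
        field_simp
        ring
      rw [e2, abs_mul, abs_of_pos (inv_pos.2 hN'), div_eq_inv_mul]
      refine mul_le_mul_of_nonneg_left ?_ (inv_pos.2 hN').le
      refine (abs_sub _ _).trans ?_
      have h3 : |(K : ℝ)⁻¹ * ∑ t ∈ Finset.range K, a t| ≤ C := by
        rw [abs_mul, abs_of_pos (inv_pos.2 hK'), inv_mul_le_iff₀ hK', mul_comm]
        exact hb K
      linarith [ha K]
    · have h1 : 2 * ((N - 1) / 2) + 1 = N := by omega
      rw [h1, sub_self, abs_zero]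
      positivity
  have hlim : Tendsto (fun N : ℕ => 2 * C / (N : ℝ)) atTop (𝓝 0) :=
    tendsto_const_nhds.div_atTop tendsto_natCast_atTop_atTop
  have hsub : Tendsto (fun N : ℕ => (N - 1) / 2) atTop atTop :=
    tendsto_atTop_atTop.2 fun b => ⟨2 * b + 1, fun N hN => by omega⟩
  have h4 := h.comp hsub
  have h5 : Tendsto (fun N : ℕ => ((N : ℝ)⁻¹ * ∑ t ∈ Finset.range N, a t) -
      (((2 * ((N - 1) / 2) + 1 : ℕ) : ℝ)⁻¹ *
        ∑ t ∈ Finset.range (2 * ((N - 1) / 2) + 1), a t)) atTop (𝓝 0) := by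
    refine squeeze_zero_norm' ?_ hlim
    filter_upwards [eventually_ge_atTop 1] with N hN
    exact hdiff N hN
  have h6 := h5.add h4
  rw [zero_add] at h6
  refine h6.congr fun N => ?_
  simp only [Function.comp_apply]
  ring

theorem tendsto_coord : Tendsto (fun N : Fin 1 → ℕ => N 0) atTop atTop :=
  tendsto_atTop_atTop.2 fun b => ⟨fun _ => b, fun N hN => hN 0⟩

theorem pos_seq {G : Type*} [Group G] {ℓ : G → ℝ} {J : Type*} [DecidableEq J] {g : J → ℤ → G}
    (h1 : ∀ v, BddMult fun n => ℓ (g v n))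
    (h2 : ∀ v w, v ≠ w → Apart (fun n => ℓ (g v n)) (fun n => ℓ (g w n)))
    (S : Finset J) (hS : S.Nonempty) :
    Pos ℓ S (fun (n : Fin 1 → ℕ) v => g v (zz (n 0))) (fun _ => Finset.univ)
      (S.biUnion fun _ => Finset.univ) := by
  classical
  obtain ⟨v₀, hv₀⟩ := hS
  have hmem : ∀ l : Fin 1, l ∈ S.biUnion fun _ => (Finset.univ : Finset (Fin 1)) := fun l =>
    Finset.mem_biUnion.2 ⟨v₀, hv₀, Finset.mem_univ l⟩
  refine ⟨⟨0, hmem 0⟩, fun v _ n n' h => ?_, fun v hv l _ => hmem l,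
    fun l hl => ⟨v₀, hv₀, Finset.mem_univ l⟩, fun R hR δ hδ => ?_, fun R hR v _ w _ hvw => ?_⟩
  · show g v (zz (n 0)) = g v (zz (n' 0))
    rw [h 0 (Finset.mem_univ 0)]
  · choose C hC hCm using fun v => mult_zz (h1 v) hR
    refine ⟨1 + ∑ v ∈ S, C v, by omega, Eventually.of_forall fun N l _ => ?_⟩
    have h3 : ∀ n : Fin 1 → ℕ, badl ℓ (1 + ∑ v ∈ S, C v) R S (fun _ => Finset.univ)
        (fun (n : Fin 1 → ℕ) v => g v (zz (n 0))) l n = 0 := by
      intro n
      unfold badl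
      rw [if_pos]
      intro v hv _
      have h4 : C v ≤ ∑ v ∈ S, C v :=
        Finset.single_le_sum (f := fun v => C v) (fun _ _ => Nat.zero_le _) hv
      have h5 := (hCm v).mono (show C v ≤ 1 + ∑ v ∈ S, C v by omega)
      have e : (fun t : ℕ => ℓ (g v (zz ((Function.update n l t) 0)))) =
          fun t => ℓ (g v (zz t)) := by
        funext t
        rw [Subsingleton.elim l 0, Function.update_self]
      rw [e]
      exact h5
    simp only [h3]
    have e : (bx 1 N fun _ => (0 : ℝ)) = 0 := by simp [bx]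
    rw [e]
    exact hδ.le
  · have h3 := h2 v w hvw R hR
    have h4 : Tendsto (fun N : ℕ => (N : ℝ)⁻¹ * ∑ t ∈ Finset.range N,
        (if |ℓ (g v (zz t)) - ℓ (g w (zz t))| < R then (1 : ℝ) else 0)) atTop (𝓝 0) := by
      refine odd_to_all (C := 1) (fun t => ?_) ?_
      · split_ifs <;> simp
      · refine h3.congr fun N => ?_
        congr 1
        rw [← zz_sum (fun n => if |ℓ (g v n) - ℓ (g w n)| < R then (1 : ℝ) else 0) N]
    refine (h4.comp tendsto_coord).congr fun N => ?_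
    rw [bx_one]
    rfl

/-- two-sided single averages -/
def SA2 {X : Type*} [MeasurableSpace X] (μ : Measure X) (q : ℤ → X → X) : Prop :=
  ∀ H : X → ℝ, Measurable H → (∃ C : ℝ, ∀ x, |H x| ≤ C) →
    ∀ᵐ x ∂μ, ∃ L : ℝ, Tendsto (fun N : ℕ => ((2 * N + 1 : ℕ) : ℝ)⁻¹ *
      ∑ n ∈ Finset.Icc (-(N : ℤ)) (N : ℤ), H (q n x)) atTop (𝓝 L)

variable {X : Type*} {mA mY mX : MeasurableSpace X} {μ : Measure X} [IsProbabilityMeasure μ]
variable {G : Type*} [Group G]
variable {Φ : G →* Equiv.Perm X} {ℓ : G → ℝ}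

theorem good_sa2 {q : ℤ → X → X} (h : SA2 μ q) :
    Good1 μ fun n : Fin 1 → ℕ => q (zz (n 0)) := by
  intro H hH hb
  obtain ⟨C, hC⟩ := hb
  filter_upwards [h H hH ⟨C, hC⟩] with x hx
  obtain ⟨L, hL⟩ := hx
  refine ⟨L, ?_⟩
  have h4 : Tendsto (fun N : ℕ => (N : ℝ)⁻¹ * ∑ t ∈ Finset.range N, H (q (zz t) x)) atTop
      (𝓝 L) := by
    refine odd_to_all (fun t => hC _) ?_
    refine hL.congr fun N => ?_
    rw [zz_sum (fun n => H (q n x)) N]
  refine (h4.comp tendsto_coord).congr fun N => ?_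
  rw [bx_one]
  rfl

theorem sa2_pow (hFl : ∀ g, MeasurePreserving (Φ g) μ μ) (w b : G) {g : ℤ → G}
    (hg : ∀ n, g n = w * b ^ n) : SA2 μ fun n => (Φ (g n) : X → X) := by
  intro H hH hb
  have hp := good_orb hFl w (fun _ : Fin 1 => b) (q := fun m => w * b ^ (m 0)) (fun m => by simp)
  have hn := good_orb hFl w (fun _ : Fin 1 => b⁻¹) (q := fun m => w * b⁻¹ ^ (m 0))
    (fun m => by simp)
  filter_upwards [hp H hH hb, hn H hH hb] with x hx1 hx2
  obtain ⟨L₁, hL₁⟩ := hx1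
  obtain ⟨L₂, hL₂⟩ := hx2
  obtain ⟨L, hL⟩ := Pool.Agent.TH784.AA.two_sided (F := fun n => ((H (Φ (g n) x) : ℝ) : ℂ))
    ⟨L₁, by
      have h2 := (Complex.continuous_ofReal.tendsto _).comp hL₁
      refine h2.congr fun N => ?_
      rw [Function.comp_apply, ← bxc_cast]
      congr 1
      funext m
      rw [hg, zpow_natCast]⟩
    ⟨L₂, by
      have h2 := (Complex.continuous_ofReal.tendsto _).comp hL₂
      refine h2.congr fun N => ?_
      rw [Function.comp_apply, ← bxc_cast]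
      congr 1
      funext m
      rw [hg, zpow_neg, zpow_natCast, inv_pow]⟩
  refine ⟨L.re, ?_⟩
  have h3 := (Complex.continuous_re.tendsto _).comp hL
  refine h3.congr fun N => ?_
  rw [Function.comp_apply]
  have e : ((2 * N + 1 : ℕ) : ℂ)⁻¹ * ∑ n ∈ Finset.Icc (-(N : ℤ)) (N : ℤ),
      ((H (Φ (g n) x) : ℝ) : ℂ) = (((2 * N + 1 : ℕ) : ℝ)⁻¹ *
      ∑ n ∈ Finset.Icc (-(N : ℤ)) (N : ℤ), H (Φ (g n) x) : ℝ) := by
    push_cast
    rfl
  rw [e, Complex.ofReal_re]

theorem main_two {J : Type*} [Fintype J] [DecidableEq J] (hK : KExt μ mA mY Φ ℓ)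
    (q : J → ℤ → G) (h1 : ∀ j, BddMult fun n => ℓ (q j n))
    (h2 : ∀ i j, i ≠ j → Apart (fun n => ℓ (q i n)) (fun n => ℓ (q j n)))
    {f : J → X → ℂ} (hf : ∀ j, MemLp (f j) ∞ μ)
    (hslot : ∀ j, (∃ w b : G, ∀ n, q j n = w * b ^ n) ∨
      @SA2 X mX μ (fun n => (Φ (q j n) : X → X)) ∨ RegB μ mA mY Φ (f j)) :
    ∀ᵐ x ∂μ, Tendsto (fun N : ℕ => ((2 * N + 1 : ℕ) : ℂ)⁻¹ *
      ∑ n ∈ Finset.Icc (-(N : ℤ)) (N : ℤ),
      (∏ j, f j (Φ (q j n) x) - ∏ j, (μ[f j | mY]) (Φ (q j n) x))) atTop (𝓝 0) := by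
  classical
  rcases isEmpty_or_nonempty J with hJ | ⟨⟨j₀⟩⟩
  · refine Eventually.of_forall fun x => ?_
    refine tendsto_const_nhds.congr fun M => ?_
    simp
  obtain ⟨s₀, hs₀⟩ : ∃ s₀ : G, 0 < ℓ s₀ := by
    by_contra hcon
    push Not at hcon
    have hz : ∀ a, ℓ a = 0 := by
      intro a
      have e1 := hcon a
      have e2 := hcon a⁻¹
      rw [hK.filt.inv] at e2
      linarith
    obtain ⟨C, hC⟩ := h1 j₀ 1 one_pos
    have h3 := hC 0 (C + 1)
    rw [Finset.filter_true_of_mem (fun n _ => by simp only [hz]; norm_num), Int.card_Icc] at h3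
    push_cast at h3
    omega
  have hPos := fun (S : Finset J) hS => pos_seq (ℓ := ℓ) h1 h2 S hS
  choose g hg hfg using fun j => BM_of_memLp' (hf j)
  have hfi : ∀ j, Integrable (f j) μ := fun j => (hf j).integrable le_top
  have hYX : mY ≤ mX := hK.base.le.trans hK.filt.le
  choose e he heY hee hfe using fun j => exists_cond (μ := μ) hYX (hg j)
  have hgood : ∀ j, ¬ Good1 μ (fun n : Fin 1 → ℕ => (Φ (q j (zz (n 0))) : X → X)) →
      Reg μ mA Φ fun x => g j x - e j x := by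
    intro j hj
    rcases hslot j with ⟨w, b, hwb⟩ | hs | hr
    · exact absurd (good_sa2 (sa2_pow hK.fl w b hwb)) hj
    · exact absurd (good_sa2 hs) hj
    · have hei : Integrable (e j) μ := by
        obtain ⟨hm, C, hC⟩ := he j
        exact Integrable.of_bound hm.aestronglyMeasurable C (Eventually.of_forall hC)
      exact reg_of_regB hK (hfi j) (hfg j) (heY j) hei
        ((hee j).trans (condExp_congr_ae (hfg j).symm)) hr
  have hmain := base_char hK hs₀ (q := fun (n : Fin 1 → ℕ) v => q v (zz (n 0)))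
    (D := fun _ => Finset.univ) (fun v n n' h => by
      show q v (zz (n 0)) = q v (zz (n' 0))
      rw [h 0 (Finset.mem_univ 0)]) hPos
    (fun j => Good1 μ fun n : Fin 1 → ℕ => (Φ (q j (zz (n 0))) : X → X))
    (fun v h => h) hg he heY hfe hgood (Or.inl fun _ _ => rfl)
  have a1 : ∀ᵐ x ∂μ, ∀ (m : ℤ) (j : J), f j (Φ (q j m) x) = g j (Φ (q j m) x) := by
    rw [ae_all_iff]
    intro m
    rw [ae_all_iff]
    intro j
    exact (hK.fl _).quasiMeasurePreserving.ae (hfg j)
  have a2 : ∀ᵐ x ∂μ, ∀ (m : ℤ) (j : J),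
      (μ[f j | mY]) (Φ (q j m) x) = e j (Φ (q j m) x) := by
    rw [ae_all_iff]
    intro m
    rw [ae_all_iff]
    intro j
    have h5 : μ[f j | mY] =ᵐ[μ] e j := (condExp_congr_ae (hfg j)).trans (hee j).symm
    exact (hK.fl _).quasiMeasurePreserving.ae h5
  filter_upwards [hmain, a1, a2] with x hx hx1 hx2
  have hN : Tendsto (fun (N : ℕ) (_ : Fin 1) => 2 * N + 1) atTop atTop :=
    tendsto_atTop_atTop.2 fun b => ⟨b 0, fun N hN j => by
      rw [Subsingleton.elim j 0]
      show b 0 ≤ 2 * N + 1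
      omega⟩
  refine (hx.comp hN).congr fun N => ?_
  rw [Function.comp_apply, bxc_one]
  congr 1
  rw [← zz_sum (fun n => ∏ j, f j (Φ (q j n) x) - ∏ j, (μ[f j | mY]) (Φ (q j n) x)) N]
  refine Finset.sum_congr rfl fun t _ => ?_
  congr 1
  · exact Finset.prod_congr rfl fun j _ => (hx1 _ j).symm
  · exact Finset.prod_congr rfl fun j _ => (hx2 _ j).symm

theorem apart_of_bdd {lam lam' : ℤ → ℝ} (h : BddMult fun n => lam n - lam' n) :
    Apart lam lam' := by
  classical
  intro R hR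
  obtain ⟨C, hC⟩ := h (2 * R) (by positivity)
  have hlim : Tendsto (fun N : ℕ => (C : ℝ) / ((2 * N + 1 : ℕ) : ℝ)) atTop (𝓝 0) := by
    refine tendsto_const_nhds.div_atTop ?_
    exact tendsto_natCast_atTop_atTop.comp
      (tendsto_atTop_atTop.2 fun b => ⟨b, fun a ha => by omega⟩)
  refine squeeze_zero (fun N => ?_) (fun N => ?_) hlim
  · exact mul_nonneg (by positivity) (Finset.sum_nonneg fun _ _ => by split_ifs <;> norm_num)
  · rw [← Finset.sum_filter, Finset.sum_const, nsmul_eq_mul, mul_one, div_eq_inv_mul]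
    refine mul_le_mul_of_nonneg_left ?_ (by positivity)
    have h7 := hC (-R) N
    have h8 : ((Finset.Icc (-(N : ℤ)) (N : ℤ)).filter fun n => |lam n - lam' n| < R).card ≤
        C := by
      refine le_trans (Finset.card_le_card ?_) h7
      intro t ht
      rw [Finset.mem_filter] at ht ⊢
      have h9 := abs_lt.1 ht.2
      exact ⟨ht.1, h9.1.le, by linarith [h9.2]⟩
    exact_mod_cast h8

theorem bdd_poly {P : Polynomial ℝ} (hP : 0 < P.natDegree) :
    BddMult fun n => P.eval (n : ℝ) := by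
  classical
  intro R hR
  have hlc : 0 < |P.coeff P.natDegree| := by
    rw [abs_pos, Polynomial.coeff_natDegree, Ne, Polynomial.leadingCoeff_eq_zero]
    rintro rfl
    simp at hP
  obtain ⟨C₁, -, h1⟩ := mult_unif (d := P.natDegree) hP hlc hR
  have h2 := h1 P le_rfl le_rfl
  set Q := P.comp (-Polynomial.X) with hQ
  have hQd : Q.natDegree = P.natDegree := by
    rw [hQ, Polynomial.natDegree_comp, Polynomial.natDegree_neg, Polynomial.natDegree_X, mul_one]
  have hQc : |Q.coeff P.natDegree| = |P.coeff P.natDegree| := by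
    have h3 : Q.leadingCoeff = P.leadingCoeff * (-1) ^ P.natDegree := by
      rw [hQ, Polynomial.leadingCoeff_comp (by simp)]
      simp
    have h4 : Q.coeff P.natDegree = Q.leadingCoeff := by
      rw [Polynomial.leadingCoeff, hQd]
    rw [h4, h3, abs_mul, abs_pow, abs_neg, abs_one, one_pow, mul_one]
    rfl
  have h5 := h1 Q hQd.le hQc.ge
  refine ⟨C₁ + C₁, fun a M => ?_⟩
  have h6 := h2 a (M + 1)
  have h7 := h5 a (M + 1)
  have hsub : ((Finset.Icc (-(M : ℤ)) (M : ℤ)).filter fun n : ℤ =>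
      a ≤ P.eval (n : ℝ) ∧ P.eval (n : ℝ) < a + R) ⊆
      (((Finset.range (M + 1)).filter fun t : ℕ => a ≤ P.eval (t : ℝ) ∧
        P.eval (t : ℝ) < a + R).image fun t : ℕ => (t : ℤ)) ∪
      (((Finset.range (M + 1)).filter fun t : ℕ => a ≤ Q.eval (t : ℝ) ∧
        Q.eval (t : ℝ) < a + R).image fun t : ℕ => -(t : ℤ)) := by
    intro n hn
    rw [Finset.mem_filter, Finset.mem_Icc] at hn
    obtain ⟨⟨hn1, hn2⟩, hn3⟩ := hn
    rw [Finset.mem_union]
    rcases le_total 0 n with h | h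
    · left
      obtain ⟨t, rfl⟩ := Int.eq_ofNat_of_zero_le h
      refine Finset.mem_image.2 ⟨t, Finset.mem_filter.2 ⟨Finset.mem_range.2 (by omega), ?_⟩, rfl⟩
      simpa using hn3
    · right
      obtain ⟨t, ht⟩ := Int.eq_ofNat_of_zero_le (show 0 ≤ -n by omega)
      have hnt : n = -(t : ℤ) := by omega
      subst hnt
      refine Finset.mem_image.2 ⟨t, Finset.mem_filter.2 ⟨Finset.mem_range.2 (by omega), ?_⟩, rfl⟩
      rw [hQ, Polynomial.eval_comp]
      simpa using hn3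
  refine (Finset.card_le_card hsub).trans ((Finset.card_union_le _ _).trans (add_le_add ?_ ?_))
  · exact Finset.card_image_le.trans h6
  · exact Finset.card_image_le.trans h7

end Pool.Agent.Q96.KP
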